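import Pool.Agent.Q88.Resid.Defs

/-! # Operators that are weak limits of unitaries of `M` -/

namespace Q88.Resid

open scoped InnerProductSpace

variable {H : Type*} [NormedAddCommGroup H] [InnerProductSpace ℂ H] [CompleteSpace H]

lemma smul_mem' {M : VonNeumannAlgebra H} {x : H →L[ℂ] H} (hx : x ∈ M) (c : ℂ) : c • x ∈ M :=
  M.toStarSubalgebra.smul_mem hx c

lemma rsmul_mem' {M : VonNeumannAlgebra H} {x : H →L[ℂ] H} (hx : x ∈ M) (c : ℝ) : c • x ∈ M := by
  have := smul_mem' hx (c : ℂ)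
  rwa [Complex.coe_smul] at this

/-- Matrix coefficients of an operator. -/
noncomputable def phi (x : H →L[ℂ] H) : H × H → ℂ := fun p => ⟪p.1, x p.2⟫_ℂ

lemma phi_inj {x y : H →L[ℂ] H} (h : phi x = phi y) : x = y := by
  ext η
  refine ext_inner_left ℂ fun ξ => ?_
  exact congrFun h (ξ, η)

/-- unitary elements of `M`. -/
structure IsU (M : VonNeumannAlgebra H) (u : H →L[ℂ] H) : Prop where
  mem : u ∈ M
  left : star u * u = 1
  right : u * star u = 1

lemma IsU.one (M : VonNeumannAlgebra H) : IsU M (1 : H →L[ℂ] H) :=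
  ⟨one_mem M, by simp, by simp⟩

lemma IsU.mul {M : VonNeumannAlgebra H} {u v : H →L[ℂ] H} (hu : IsU M u) (hv : IsU M v) :
    IsU M (u * v) := by
  refine ⟨mul_mem hu.mem hv.mem, ?_, ?_⟩
  · calc star (u * v) * (u * v) = star v * (star u * u) * v := by
          rw [star_mul]; simp only [mul_assoc]
      _ = 1 := by rw [hu.left, mul_one, hv.left]
  · calc u * v * star (u * v) = u * (v * star v) * star u := by
          rw [star_mul]; simp only [mul_assoc]
      _ = 1 := by rw [hv.right, mul_one, hu.right]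

lemma IsU.norm_le {M : VonNeumannAlgebra H} {u : H →L[ℂ] H} (hu : IsU M u) : ‖u‖ ≤ 1 := by
  have h : ‖u‖ * ‖u‖ = ‖star u * u‖ := (CStarRing.norm_star_mul_self).symm
  rw [hu.left] at h
  have h1 : ‖(1 : H →L[ℂ] H)‖ ≤ 1 := ContinuousLinearMap.norm_id_le
  nlinarith [norm_nonneg u]

/-- matrix coefficients of unitaries -/
def UU (M : VonNeumannAlgebra H) : Set (H × H → ℂ) := phi '' {u | IsU M u}

/-- `x` is a weak limit of unitaries of `M`. -/
def Ap (M : VonNeumannAlgebra H) (x : H →L[ℂ] H) : Prop := phi x ∈ closure (UU M)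

lemma Ap.of_isU {M : VonNeumannAlgebra H} {u : H →L[ℂ] H} (hu : IsU M u) : Ap M u :=
  subset_closure ⟨u, hu, rfl⟩

lemma Ap.of_tendsto {M : VonNeumannAlgebra H} {x : H →L[ℂ] H} {f : ℕ → (H →L[ℂ] H)}
    (hf : ∀ n, Ap M (f n))
    (h : ∀ ξ η : H, Filter.Tendsto (fun n => ⟪ξ, f n η⟫_ℂ) Filter.atTop (nhds ⟪ξ, x η⟫_ℂ)) :
    Ap M x := by
  have h1 : Filter.Tendsto (fun n => phi (f n)) Filter.atTop (nhds (phi x)) := by
    rw [tendsto_pi_nhds]
    intro p
    exact h p.1 p.2
  exact isClosed_closure.mem_of_tendsto h1 (Filter.Eventually.of_forall hf)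

lemma Ap.of_tendsto_norm {M : VonNeumannAlgebra H} {x : H →L[ℂ] H} {f : ℕ → (H →L[ℂ] H)}
    (hf : ∀ n, Ap M (f n)) (h : Filter.Tendsto f Filter.atTop (nhds x)) : Ap M x := by
  refine Ap.of_tendsto hf fun ξ η => ?_
  have h1 : Continuous fun y : H →L[ℂ] H => ⟪ξ, y η⟫_ℂ := by fun_prop
  exact (h1.tendsto x).comp h

lemma Ap.mul {M : VonNeumannAlgebra H} {x y : H →L[ℂ] H} (hx : Ap M x) (hy : Ap M y) :
    Ap M (x * y) := by
  have key : ∀ u : H →L[ℂ] H, IsU M u → Ap M (u * y) := by
    intro u hu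
    let L : (H × H → ℂ) → (H × H → ℂ) := fun f p => f (star u p.1, p.2)
    have hL : Continuous L := continuous_pi fun p => continuous_apply _
    have h1 : phi (u * y) = L (phi y) := by
      funext p
      simp only [L, phi, mul_apply_eq_comp, ContinuousLinearMap.star_eq_adjoint]
      rw [ContinuousLinearMap.adjoint_inner_left]
    unfold Ap
    rw [h1]
    refine map_mem_closure hL hy ?_
    rintro _ ⟨v, hv, rfl⟩
    refine ⟨u * v, hu.mul hv, ?_⟩
    funext p
    simp only [L, phi, mul_apply_eq_comp, ContinuousLinearMap.star_eq_adjoint]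
    rw [ContinuousLinearMap.adjoint_inner_left]
  let R : (H × H → ℂ) → (H × H → ℂ) := fun f p => f (p.1, y p.2)
  have hR : Continuous R := continuous_pi fun p => continuous_apply _
  have h2 : phi (x * y) = R (phi x) := rfl
  unfold Ap
  rw [h2, ← closure_closure]
  refine map_mem_closure hR hx ?_
  rintro _ ⟨u, hu, rfl⟩
  exact key u hu

/-- averaging with a weak limit of unitaries -/
lemma Ap.avg {M : VonNeumannAlgebra H} {x z : H →L[ℂ] H} (hz : Ap M z)
    (h : ∀ u, IsU M u → Ap M ((2 : ℂ)⁻¹ • (x + u))) : Ap M ((2 : ℂ)⁻¹ • (x + z)) := by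
  let L : (H × H → ℂ) → (H × H → ℂ) := fun f p => (2 : ℂ)⁻¹ * (phi x p + f p)
  have hL : Continuous L := by
    refine continuous_pi fun p => ?_
    exact continuous_const.mul (continuous_const.add (continuous_apply p))
  have h0 : ∀ y : H →L[ℂ] H, phi ((2 : ℂ)⁻¹ • (x + y)) = L (phi y) := by
    intro y
    funext p
    simp only [L, phi, smul_apply, add_apply,
      inner_smul_right, inner_add_right]
  unfold Ap
  rw [h0, ← closure_closure]
  refine map_mem_closure hL hz ?_
  rintro _ ⟨u, hu, rfl⟩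
  rw [← h0]
  exact h u hu

/-- approximate on finite sets of vectors -/
lemma Ap.of_finset {M : VonNeumannAlgebra H} {x : H →L[ℂ] H}
    (h : ∀ s : Finset (H × H), ∃ y : H →L[ℂ] H, Ap M y ∧ ∀ p ∈ s, phi y p = phi x p) :
    Ap M x := by
  unfold Ap
  rw [← closure_closure, mem_closure_iff]
  intro o ho hxo
  obtain ⟨I, u, hu, hIu⟩ := isOpen_pi_iff.1 ho _ hxo
  obtain ⟨y, hy, hys⟩ := h I
  refine ⟨phi y, hIu ?_, hy⟩
  intro p hp
  rw [hys p hp]
  exact (hu p hp).2

/-! ### projections onto invariant subspaces -/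

lemma starProjection_mem (M : VonNeumannAlgebra H) (U : Submodule ℂ H) [CompleteSpace U]
    (hU : ∀ y ∈ M.commutant, ∀ ξ ∈ U, y ξ ∈ U) : U.starProjection ∈ M := by
  rw [VonNeumannAlgebra.IsStarProjection.mem_iff isStarProjection_starProjection]
  intro y hy
  rw [Submodule.range_starProjection]
  exact hU y hy

lemma closure_span_invariant (S : Set H) (T : H →L[ℂ] H)
    (h : ∀ ξ ∈ S, T ξ ∈ (Submodule.span ℂ S).topologicalClosure) :
    ∀ ξ ∈ (Submodule.span ℂ S).topologicalClosure,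
      T ξ ∈ (Submodule.span ℂ S).topologicalClosure := by
  have h1 : (Submodule.span ℂ S).topologicalClosure ≤
      ((Submodule.span ℂ S).topologicalClosure).comap (T : H →ₗ[ℂ] H) := by
    refine Submodule.topologicalClosure_minimal _ ?_ ?_
    · rw [Submodule.span_le]
      intro ξ hξ
      exact h ξ hξ
    · exact (Submodule.isClosed_topologicalClosure _).preimage T.continuous
  exact fun ξ hξ => h1 hξ

end Q88.Resid
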