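import Mathlib

/-!
# Property (R) of von Neumann algebras: definitions

`H` is a complex Hilbert space, `M : VonNeumannAlgebra H` a von Neumann algebra on `H`
(a unital star-subalgebra of the bounded operators equal to its double commutant).
-/

namespace Q88.Resid

variable {H : Type*} [NormedAddCommGroup H] [InnerProductSpace ℂ H] [CompleteSpace H]

/-- The closed unit ball of `M`. -/
def Ball (M : VonNeumannAlgebra H) : Type _ := {x : H →L[ℂ] H // x ∈ M ∧ ‖x‖ ≤ 1}

/-- Square summable sequences of vectors of `H`. -/
def SqSummable (H : Type*) [NormedAddCommGroup H] : Type _ :=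
  {f : ℕ → H // Summable fun n => ‖f n‖ ^ 2}

/-- The normal functional `x ↦ ∑ₙ ⟪ξₙ, x ηₙ⟫` given by two square summable sequences. The
functionals of this form are exactly the elements of the predual of `M`. -/
noncomputable def normalFunctional (ξ η : SqSummable H) (x : H →L[ℂ] H) : ℂ :=
  ∑' n, inner ℂ (ξ.1 n) (x (η.1 n))

/-- The weak* topology (the topology of pointwise convergence on the predual, i.e. the σ-weak
topology) on the closed unit ball of `M`. -/
noncomputable instance instTopologicalSpaceBall (M : VonNeumannAlgebra H) :
    TopologicalSpace (Ball M) :=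
  TopologicalSpace.induced
    (fun x => fun p : SqSummable H × SqSummable H => normalFunctional p.1 p.2 x.1) inferInstance

/-- The unitary elements of `M`, as a subset of its closed unit ball. -/
def unitaries (M : VonNeumannAlgebra H) : Set (Ball M) :=
  {x | star x.1 * x.1 = 1 ∧ x.1 * star x.1 = 1}

/-- Property (R): the unitaries of `M` are residual in the closed unit ball of `M` for the weak*
topology, i.e. the non-unitary elements form a set of first category. -/
def PropR (M : VonNeumannAlgebra H) : Prop := IsMeagre (unitaries M)ᶜ

/-- `M` is σ-finite (countably decomposable): every set of mutually orthogonal nonzero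
projections of `M` is countable. -/
def SigmaFinite (M : VonNeumannAlgebra H) : Prop :=
  ∀ S : Set (H →L[ℂ] H), (∀ p ∈ S, p ∈ M ∧ IsStarProjection p ∧ p ≠ 0) →
    S.Pairwise (fun p q => p * q = 0) → S.Countable

/-- `M` has a nonzero finite-dimensional direct summand: a nonzero central projection `z` of `M`
such that `zM` is finite-dimensional. -/
def HasFinDimSummand (M : VonNeumannAlgebra H) : Prop :=
  ∃ z ∈ M, IsStarProjection z ∧ z ≠ 0 ∧ (∀ x ∈ M, z * x = x * z) ∧
    FiniteDimensional ℂ (Submodule.span ℂ {y : H →L[ℂ] H | ∃ x ∈ M, y = z * x})

end Q88.Resid
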