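import Pool.Agent.Q88.Resid.Induct

/-! # Density of the unitaries -/

namespace Q88.Resid

open scoped InnerProductSpace
open Filter Topology

variable {H : Type*} [NormedAddCommGroup H] [InnerProductSpace ℂ H] [CompleteSpace H]

lemma mem_of_comm {M : VonNeumannAlgebra H} {x : H →L[ℂ] H}
    (h : ∀ z ∈ M.commutant, z * x = x * z) : x ∈ M := by
  rw [← M.commutant_commutant, VonNeumannAlgebra.mem_commutant_iff]
  exact h

lemma ap_of_isUnit {M : VonNeumannAlgebra H} (hM : ¬ HasFinDimSummand M)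
    {y : H →L[ℂ] H} (hy : y ∈ M) (hyn : ‖y‖ ≤ 1) (hyu : IsUnit y) : Ap M y := by
  set c := star y * y with hc
  have hcM : c ∈ M := mul_mem (star_mem hy) hy
  have hc0 : 0 ≤ c := star_mul_self_nonneg y
  set h := CFC.sqrt c with hh
  have hhh : h * h = c := CFC.sqrt_mul_sqrt_self c hc0
  have hh0 : 0 ≤ h := CFC.sqrt_nonneg c
  have hhs : IsSelfAdjoint h := IsSelfAdjoint.of_nonneg hh0
  have hcomm : ∀ z ∈ M.commutant, z * h = h * z := by
    intro z hz
    have h1 : Commute c z := (VonNeumannAlgebra.mem_commutant_iff.1 hz) c hcM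
    exact (h1.cfcₙ_nnreal NNReal.sqrt).symm.eq
  have hhM : h ∈ M := mem_of_comm hcomm
  have hcu : IsUnit c := hyu.star.mul hyu
  have hhu : IsUnit h := by
    rw [← hhh] at hcu
    exact ((Commute.refl h).isUnit_mul_iff.1 hcu).1
  obtain ⟨U, hU⟩ := hhu
  set k : H →L[ℂ] H := ((U⁻¹ : (H →L[ℂ] H)ˣ) : H →L[ℂ] H) with hk
  have hkh : k * h = 1 := by rw [hk, ← hU]; simp
  have hhk : h * k = 1 := by rw [hk, ← hU]; simp
  have hkM : k ∈ M := by
    refine mem_of_comm fun z hz => ?_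
    calc z * k = k * (h * z) * k := by rw [← mul_assoc k, hkh, one_mul]
      _ = k * z * (h * k) := by rw [← hcomm z hz]; simp only [mul_assoc]
      _ = k * z := by rw [hhk, mul_one]
  have hks : star k = k := by
    have h1 : h * star k = 1 := by
      have := congrArg star hkh
      rwa [star_mul, hhs.star_eq, star_one] at this
    calc star k = k * h * star k := by rw [hkh, one_mul]
      _ = k := by rw [mul_assoc, h1, mul_one]
  set w := y * k with hw
  have hww : star w * w = 1 := by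
    calc star w * w = k * c * k := by rw [hw, star_mul, hks, hc]; simp only [mul_assoc]
      _ = (k * h) * (h * k) := by rw [← hhh]; simp only [mul_assoc]
      _ = 1 := by rw [hkh, hhk, mul_one]
  have hwu : IsUnit w := hyu.mul ⟨U⁻¹, rfl⟩
  have hww' : w * star w = 1 := by
    obtain ⟨W, hW⟩ := hwu
    have h1 : star w = ((W⁻¹ : (H →L[ℂ] H)ˣ) : H →L[ℂ] H) := by
      have : star w * (W : H →L[ℂ] H) = 1 := by rw [hW, hww]
      exact Units.eq_inv_of_mul_eq_one_right this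
    rw [h1, ← hW]; simp
  have hwU : IsU M w := ⟨mul_mem hy hkM, hww, hww'⟩
  have hhn : ‖h‖ ≤ 1 := by
    have h1 : ‖h‖ * ‖h‖ = ‖y‖ * ‖y‖ := by
      have h2 : ‖star h * h‖ = ‖h‖ * ‖h‖ := CStarRing.norm_star_mul_self
      have h3 : ‖star y * y‖ = ‖y‖ * ‖y‖ := CStarRing.norm_star_mul_self
      rw [← h2, ← h3, hhs.star_eq, hhh]
    nlinarith [norm_nonneg h, norm_nonneg y]
  have e : w * h = y := by rw [hw, mul_assoc, hkh, mul_one]
  rw [← e]
  exact (Ap.of_isU hwU).mul (ap_of_selfAdjoint hM hhM hhs hhn)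

lemma ap_of_lt_one {M : VonNeumannAlgebra H} (hM : ¬ HasFinDimSummand M)
    {x : H →L[ℂ] H} (hx : x ∈ M) (hxn : ‖x‖ < 1) : Ap M x := by
  have key : ∀ u, IsU M u → Ap M ((2 : ℂ)⁻¹ • (x + u)) := by
    intro u hu
    refine ap_of_isUnit hM (smul_mem' (add_mem hx hu.mem) _) ?_ ?_
    · rw [norm_smul]
      have h1 : ‖x + u‖ ≤ 2 := (norm_add_le _ _).trans (by linarith [hu.norm_le])
      have h2 : ‖(2 : ℂ)⁻¹‖ = 2⁻¹ := by norm_num
      rw [h2]
      linarith
    · have h1 : x + u = (1 - (-(x * star u))) * u := by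
        rw [sub_neg_eq_add, add_mul, one_mul, mul_assoc, hu.left, mul_one, add_comm]
      have h2 : ‖-(x * star u)‖ < 1 := by
        rw [norm_neg]
        calc ‖x * star u‖ ≤ ‖x‖ * ‖star u‖ := norm_mul_le _ _
          _ ≤ ‖x‖ * 1 := by gcongr; rw [norm_star]; exact hu.norm_le
          _ < 1 := by rwa [mul_one]
      have h3 : IsUnit (1 - (-(x * star u))) := isUnit_one_sub_of_norm_lt_one h2
      have h4 : IsUnit u := ⟨⟨u, star u, hu.right, hu.left⟩, rfl⟩
      have h5 : IsUnit (x + u) := by rw [h1]; exact h3.mul h4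
      have h6 : IsUnit ((2 : ℂ)⁻¹) := by simp
      obtain ⟨c, hc⟩ := h6
      rw [← hc]
      exact h5.smul c
  have hz : ∀ n : ℕ, Ap M (x + ((2 : ℂ)⁻¹ ^ n) • (1 - x)) := by
    intro n
    induction n with
    | zero =>
      have : x + ((2 : ℂ)⁻¹ ^ 0) • (1 - x) = 1 := by rw [pow_zero, one_smul]; abel
      rw [this]
      exact Ap.of_isU (IsU.one M)
    | succ n ih =>
      have := ih.avg key
      have e : (2 : ℂ)⁻¹ • (x + (x + ((2 : ℂ)⁻¹ ^ n) • (1 - x))) =
          x + ((2 : ℂ)⁻¹ ^ (n + 1)) • (1 - x) := by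
        rw [pow_succ', smul_add, smul_add, smul_smul, ← add_assoc, ← add_smul]
        norm_num
      rwa [e] at this
  refine Ap.of_tendsto_norm hz ?_
  have h1 : Tendsto (fun n : ℕ => (2 : ℂ)⁻¹ ^ n) atTop (𝓝 0) :=
    tendsto_pow_atTop_nhds_zero_of_norm_lt_one (by norm_num)
  have h2 : Tendsto (fun n : ℕ => x + ((2 : ℂ)⁻¹ ^ n) • (1 - x)) atTop
      (𝓝 (x + (0 : ℂ) • (1 - x))) := tendsto_const_nhds.add (h1.smul_const _)
  simpa using h2

/-- the unitaries are weakly dense in the unit ball. -/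
theorem ap_of_ball {M : VonNeumannAlgebra H} (hM : ¬ HasFinDimSummand M)
    {x : H →L[ℂ] H} (hx : x ∈ M) (hxn : ‖x‖ ≤ 1) : Ap M x := by
  have hf : ∀ n : ℕ, Ap M (((1 - 1 / ((n : ℝ) + 1) : ℝ) : ℂ) • x) := by
    intro n
    have h0 : (0 : ℝ) < 1 / ((n : ℝ) + 1) := by positivity
    have h1 : 1 / ((n : ℝ) + 1) ≤ 1 := by
      rw [div_le_one (by positivity)]; linarith [(Nat.cast_nonneg n : (0 : ℝ) ≤ n)]
    refine ap_of_lt_one hM (smul_mem' hx _) ?_
    rw [norm_smul, Complex.norm_real, Real.norm_eq_abs, abs_of_nonneg (by linarith)]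
    calc (1 - 1 / ((n : ℝ) + 1)) * ‖x‖ ≤ (1 - 1 / ((n : ℝ) + 1)) * 1 := by
          gcongr
      _ < 1 := by linarith
  refine Ap.of_tendsto_norm hf ?_
  have h1 : Tendsto (fun n : ℕ => (1 - 1 / ((n : ℝ) + 1) : ℝ)) atTop (𝓝 (1 - 0)) :=
    tendsto_const_nhds.sub tendsto_one_div_add_atTop_nhds_zero_nat
  have h2 : Tendsto (fun n : ℕ => (((1 - 1 / ((n : ℝ) + 1) : ℝ) : ℂ)) • x) atTop
      (𝓝 ((((1 - 0 : ℝ) : ℂ)) • x)) :=
    ((Complex.continuous_ofReal.tendsto _).comp h1).smul_const x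
  simpa using h2

end Q88.Resid
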