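import Pool.Agent.Q88.Resid.MinAp

/-! # Extreme points: reduction to the case where `bMb` is finite-dimensional -/

namespace Q88.Resid

open scoped InnerProductSpace
open Filter Topology

variable {H : Type*} [NormedAddCommGroup H] [InnerProductSpace ℂ H] [CompleteSpace H]

/-- the space `b M b` -/
def bMb (M : VonNeumannAlgebra H) (b : H →L[ℂ] H) : Submodule ℂ (H →L[ℂ] H) :=
  (Msub M).map ((LinearMap.mulLeft ℂ b).comp (LinearMap.mulRight ℂ b))

lemma mem_bMb {M : VonNeumannAlgebra H} {b z : H →L[ℂ] H} :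
    z ∈ bMb M b ↔ ∃ a ∈ M, b * (a * b) = z := by
  unfold bMb
  rw [Submodule.mem_map]
  rfl

lemma norm_le_one_of_form {T : H →L[ℂ] H} (hT : IsSelfAdjoint T)
    (h : ∀ ζ, |(⟪ζ, T ζ⟫_ℂ).re| ≤ ‖ζ‖ ^ 2) : ‖T‖ ≤ 1 := by
  rw [ContinuousLinearMap.norm_eq_iSup_rayleighQuotient T hT.isSymmetric]
  refine ciSup_le fun x => ?_
  rw [ContinuousLinearMap.rayleighQuotient, ContinuousLinearMap.reApplyInnerSelf_apply,
    inner_re_symm, abs_div]
  have h1 := h x
  have h2 : |‖x‖ ^ 2| = ‖x‖ ^ 2 := abs_of_nonneg (by positivity)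
  rw [h2]
  exact div_le_one_of_le₀ h1 (by positivity)

lemma form_bound {y : H →L[ℂ] H} (hn : ‖y‖ ≤ 1) (ζ : H) :
    ‖(1 - y * y) ζ‖ ^ 2 ≤ 8 * (‖ζ‖ ^ 2 - (⟪ζ, y ζ⟫_ℂ).re) := by
  have h1 : (1 - y * y) ζ = (1 + y) (ζ - y ζ) := by
    simp only [sub_apply, add_apply, one_apply_eq_self, mul_apply_eq_comp, map_sub]
    abel
  have h2 : ‖(1 + y) (ζ - y ζ)‖ ≤ 2 * ‖ζ - y ζ‖ := by
    rw [add_apply, one_apply_eq_self]
    calc ‖(ζ - y ζ) + y (ζ - y ζ)‖ ≤ ‖ζ - y ζ‖ + ‖y (ζ - y ζ)‖ := norm_add_le _ _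
      _ ≤ ‖ζ - y ζ‖ + 1 * ‖ζ - y ζ‖ := by
          gcongr
          exact (y.le_opNorm _).trans (by gcongr)
      _ = 2 * ‖ζ - y ζ‖ := by ring
  have h3 : ‖ζ - y ζ‖ ^ 2 = ‖ζ‖ ^ 2 - 2 * (⟪ζ, y ζ⟫_ℂ).re + ‖y ζ‖ ^ 2 := by
    rw [@norm_sub_sq ℂ]; rfl
  have h4 : ‖y ζ‖ ≤ ‖ζ‖ := by
    calc ‖y ζ‖ ≤ ‖y‖ * ‖ζ‖ := y.le_opNorm _
      _ ≤ 1 * ‖ζ‖ := by gcongr
      _ = ‖ζ‖ := one_mul _
  have h5 : ‖y ζ‖ ^ 2 ≤ ‖ζ‖ ^ 2 := by gcongr
  rw [h1]
  calc ‖(1 + y) (ζ - y ζ)‖ ^ 2 ≤ (2 * ‖ζ - y ζ‖) ^ 2 := by gcongr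
    _ = 4 * ‖ζ - y ζ‖ ^ 2 := by ring
    _ ≤ _ := by rw [h3]; linarith

lemma pert {y a : H →L[ℂ] H} (hy : IsSelfAdjoint y) (hn : ‖y‖ ≤ 1) (ha : IsSelfAdjoint a)
    {t : ℝ} (ht : 0 ≤ t) (hta : 8 * t * ‖a‖ ≤ 1) :
    ‖y + (t : ℂ) • ((1 - y * y) * (a * (1 - y * y)))‖ ≤ 1 := by
  set b := 1 - y * y with hb
  have hbs : IsSelfAdjoint b := by
    rw [hb]
    exact (IsSelfAdjoint.one _).sub (by
      unfold IsSelfAdjoint; rw [star_mul, hy.star_eq])
  have hbab : IsSelfAdjoint (b * (a * b)) := by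
    unfold IsSelfAdjoint
    rw [star_mul, star_mul, hbs.star_eq, ha.star_eq, mul_assoc]
  have hsa : IsSelfAdjoint (y + (t : ℂ) • (b * (a * b))) := by
    refine hy.add ?_
    unfold IsSelfAdjoint
    rw [star_smul, hbab.star_eq, Complex.star_def, Complex.conj_ofReal]
  refine norm_le_one_of_form hsa fun ζ => ?_
  have e1 : (⟪ζ, (y + (t : ℂ) • (b * (a * b))) ζ⟫_ℂ).re =
      (⟪ζ, y ζ⟫_ℂ).re + t * (⟪b ζ, a (b ζ)⟫_ℂ).re := by
    rw [add_apply, smul_apply, mul_apply_eq_comp, mul_apply_eq_comp, inner_add_right,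
      inner_smul_right, Complex.add_re, Complex.re_ofReal_mul]
    congr 2
    have := hbs.isSymmetric ζ (a (b ζ))
    simp only [ContinuousLinearMap.coe_coe] at this
    rw [this]
  have e2 : |(⟪b ζ, a (b ζ)⟫_ℂ).re| ≤ ‖a‖ * ‖b ζ‖ ^ 2 := by
    calc |(⟪b ζ, a (b ζ)⟫_ℂ).re| ≤ ‖⟪b ζ, a (b ζ)⟫_ℂ‖ := Complex.abs_re_le_norm _
      _ ≤ ‖b ζ‖ * ‖a (b ζ)‖ := norm_inner_le_norm _ _
      _ ≤ ‖b ζ‖ * (‖a‖ * ‖b ζ‖) := by gcongr; exact a.le_opNorm _
      _ = _ := by ring
  have e3 : |t * (⟪b ζ, a (b ζ)⟫_ℂ).re| ≤ ‖b ζ‖ ^ 2 / 8 := by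
    rw [abs_mul, abs_of_nonneg ht]
    calc t * |(⟪b ζ, a (b ζ)⟫_ℂ).re| ≤ t * (‖a‖ * ‖b ζ‖ ^ 2) := by gcongr
      _ = (8 * t * ‖a‖) * (‖b ζ‖ ^ 2 / 8) := by ring
      _ ≤ 1 * (‖b ζ‖ ^ 2 / 8) := by gcongr
      _ = _ := by ring
  have e4 := form_bound hn ζ
  have e5 := form_bound (y := -y) (by rwa [norm_neg]) ζ
  have e6 : (1 - -y * -y) = b := by rw [hb]; noncomm_ring
  rw [e6] at e5
  rw [← hb] at e4
  have e7 : (⟪ζ, (-y) ζ⟫_ℂ).re = -(⟪ζ, y ζ⟫_ℂ).re := by
    rw [neg_apply, inner_neg_right, Complex.neg_re]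
  rw [e7] at e5
  rw [e1, abs_le]
  have e8 := abs_le.1 e3
  constructor <;> linarith [e8.1, e8.2]

/-- coefficient functions of self-adjoint contractions with prescribed values on `s`. -/
def KK (M : VonNeumannAlgebra H) (s : Finset (H × H)) (x : H →L[ℂ] H) : Set (H × H → ℂ) :=
  phi '' {y | y ∈ M ∧ IsSelfAdjoint y ∧ ‖y‖ ≤ 1 ∧ ∀ p ∈ s, phi y p = phi x p}

lemma exists_op (f : H × H → ℂ) (h1 : ∀ ξ ξ' η, f (ξ + ξ', η) = f (ξ, η) + f (ξ', η))
    (h2 : ∀ (c : ℂ) ξ η, f (c • ξ, η) = (starRingEnd ℂ) c * f (ξ, η))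
    (h3 : ∀ ξ η η', f (ξ, η + η') = f (ξ, η) + f (ξ, η'))
    (h4 : ∀ (c : ℂ) ξ η, f (ξ, c • η) = c * f (ξ, η))
    (h5 : ∀ ξ η, ‖f (ξ, η)‖ ≤ ‖ξ‖ * ‖η‖) : ∃ x : H →L[ℂ] H, ‖x‖ ≤ 1 ∧ phi x = f := by
  let B0 : H →ₗ⋆[ℂ] H →ₗ[ℂ] ℂ := LinearMap.mk₂'ₛₗ (starRingEnd ℂ) (RingHom.id ℂ)
    (fun ξ η => f (ξ, η)) h1 h2 h3 h4
  let B : H →L⋆[ℂ] H →L[ℂ] ℂ := B0.mkContinuous₂ 1 (by intro ξ η; rw [one_mul]; exact h5 ξ η)
  have hB : ∀ ξ η, B ξ η = f (ξ, η) := fun ξ η => rfl
  let T := InnerProductSpace.continuousLinearMapOfBilin B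
  have hT : ∀ ξ η, ⟪T ξ, η⟫_ℂ = f (ξ, η) := fun ξ η => by
    rw [← hB]; exact InnerProductSpace.continuousLinearMapOfBilin_apply B ξ η
  refine ⟨star T, ?_, ?_⟩
  · rw [norm_star]
    refine ContinuousLinearMap.opNorm_le_bound _ zero_le_one fun ξ => ?_
    rw [one_mul]
    have h6 : ‖T ξ‖ * ‖T ξ‖ ≤ ‖ξ‖ * ‖T ξ‖ := by
      have h7 := h5 ξ (T ξ)
      rw [← hT, inner_self_eq_norm_sq_to_K] at h7
      have h8 : ‖((‖T ξ‖ : ℂ)) ^ 2‖ = ‖T ξ‖ * ‖T ξ‖ := by
        rw [norm_pow, Complex.norm_real, norm_norm, sq]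
      rw [← h8]
      exact h7
    rcases eq_or_lt_of_le (norm_nonneg (T ξ)) with h9 | h9
    · rw [← h9]; exact norm_nonneg _
    · exact le_of_mul_le_mul_right h6 h9
  · funext p
    change ⟪p.1, (star T) p.2⟫_ℂ = f p
    rw [ContinuousLinearMap.star_eq_adjoint, ContinuousLinearMap.adjoint_inner_right, hT]

lemma KK_eq (M : VonNeumannAlgebra H) (s : Finset (H × H)) (x : H →L[ℂ] H) :
    KK M s x = {f | (∀ ξ ξ' η, f (ξ + ξ', η) = f (ξ, η) + f (ξ', η)) ∧
      (∀ (c : ℂ) ξ η, f (c • ξ, η) = (starRingEnd ℂ) c * f (ξ, η)) ∧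
      (∀ ξ η η', f (ξ, η + η') = f (ξ, η) + f (ξ, η')) ∧
      (∀ (c : ℂ) ξ η, f (ξ, c • η) = c * f (ξ, η)) ∧
      (∀ ξ η, ‖f (ξ, η)‖ ≤ ‖ξ‖ * ‖η‖) ∧
      (∀ ξ η, f (ξ, η) = (starRingEnd ℂ) (f (η, ξ))) ∧
      (∀ y ∈ M.commutant, ∀ ξ η, f (star y ξ, η) = f (ξ, y η)) ∧
      (∀ p ∈ s, f p = phi x p)} := by
  ext f
  constructor
  · rintro ⟨y, ⟨hyM, hys, hyn, hyp⟩, rfl⟩
    refine ⟨?_, ?_, ?_, ?_, ?_, ?_, ?_, hyp⟩
    · intro ξ ξ' η; simp [phi, inner_add_left]
    · intro c ξ η; simp [phi, inner_smul_left, mul_comm]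
    · intro ξ η η'; simp [phi, inner_add_right]
    · intro c ξ η; simp [phi, inner_smul_right]
    · intro ξ η
      calc ‖⟪ξ, y η⟫_ℂ‖ ≤ ‖ξ‖ * ‖y η‖ := norm_inner_le_norm _ _
        _ ≤ ‖ξ‖ * (1 * ‖η‖) := by
            gcongr
            exact (y.le_opNorm _).trans (by gcongr)
        _ = _ := by ring
    · intro ξ η
      have := hys.isSymmetric ξ η
      simp only [ContinuousLinearMap.coe_coe] at this
      simp only [phi, inner_conj_symm]
      exact this.symm
    · intro z hz ξ η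
      have h1 := (VonNeumannAlgebra.mem_commutant_iff.1 hz) y hyM
      simp only [phi]
      rw [ContinuousLinearMap.star_eq_adjoint, ContinuousLinearMap.adjoint_inner_left,
        ← mul_apply_eq_comp, ← h1]
      rfl
  · rintro ⟨h1, h2, h3, h4, h5, h6, h7, h8⟩
    obtain ⟨y, hyn, rfl⟩ := exists_op f h1 h2 h3 h4 h5
    refine ⟨y, ⟨?_, ?_, hyn, h8⟩, rfl⟩
    · rw [← M.commutant_commutant, VonNeumannAlgebra.mem_commutant_iff]
      intro z hz
      ext η
      refine ext_inner_left ℂ fun ξ => ?_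
      have := h7 z hz ξ η
      simp only [phi] at this
      rw [ContinuousLinearMap.star_eq_adjoint, ContinuousLinearMap.adjoint_inner_left] at this
      exact this
    · rw [ContinuousLinearMap.isSelfAdjoint_iff_isSymmetric]
      intro ξ η
      have := h6 η ξ
      have h9 := h6 ξ η
      simp only [phi, inner_conj_symm] at h9
      simp only [ContinuousLinearMap.coe_coe]
      exact h9.symm

lemma isCompact_KK (M : VonNeumannAlgebra H) (s : Finset (H × H)) (x : H →L[ℂ] H) :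
    IsCompact (KK M s x) := by
  have hc : IsCompact (Set.univ.pi fun p : H × H => Metric.closedBall (0 : ℂ) (‖p.1‖ * ‖p.2‖)) :=
    isCompact_univ_pi fun p => isCompact_closedBall _ _
  rw [KK_eq]
  refine hc.of_isClosed_subset ?_ ?_
  · have c1 : IsClosed {f : H × H → ℂ | ∀ ξ ξ' η, f (ξ + ξ', η) = f (ξ, η) + f (ξ', η)} := by
      simp only [Set.ofPred_forall]
      exact isClosed_iInter fun ξ => isClosed_iInter fun ξ' => isClosed_iInter fun η =>
        isClosed_eq (continuous_apply _) (Continuous.add (continuous_apply (_, _)) (continuous_apply (_, _)))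
    have c2 : IsClosed {f : H × H → ℂ | ∀ (c : ℂ) ξ η,
        f (c • ξ, η) = (starRingEnd ℂ) c * f (ξ, η)} := by
      simp only [Set.ofPred_forall]
      exact isClosed_iInter fun ξ => isClosed_iInter fun ξ' => isClosed_iInter fun η =>
        isClosed_eq (continuous_apply _) (continuous_const.mul (continuous_apply _))
    have c3 : IsClosed {f : H × H → ℂ | ∀ ξ η η', f (ξ, η + η') = f (ξ, η) + f (ξ, η')} := by
      simp only [Set.ofPred_forall]
      exact isClosed_iInter fun ξ => isClosed_iInter fun ξ' => isClosed_iInter fun η =>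
        isClosed_eq (continuous_apply _) (Continuous.add (continuous_apply (_, _)) (continuous_apply (_, _)))
    have c4 : IsClosed {f : H × H → ℂ | ∀ (c : ℂ) ξ η, f (ξ, c • η) = c * f (ξ, η)} := by
      simp only [Set.ofPred_forall]
      exact isClosed_iInter fun ξ => isClosed_iInter fun ξ' => isClosed_iInter fun η =>
        isClosed_eq (continuous_apply _) (continuous_const.mul (continuous_apply _))
    have c5 : IsClosed {f : H × H → ℂ | ∀ ξ η, ‖f (ξ, η)‖ ≤ ‖ξ‖ * ‖η‖} := by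
      simp only [Set.ofPred_forall]
      exact isClosed_iInter fun ξ => isClosed_iInter fun ξ' =>
        isClosed_le (continuous_apply _).norm continuous_const
    have c6 : IsClosed {f : H × H → ℂ | ∀ ξ η, f (ξ, η) = (starRingEnd ℂ) (f (η, ξ))} := by
      simp only [Set.ofPred_forall]
      exact isClosed_iInter fun ξ => isClosed_iInter fun ξ' =>
        isClosed_eq (continuous_apply _) (Complex.continuous_conj.comp (continuous_apply _))
    have c7 : IsClosed {f : H × H → ℂ | ∀ y ∈ M.commutant, ∀ ξ η,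
        f (star y ξ, η) = f (ξ, y η)} := by
      simp only [Set.ofPred_forall]
      exact isClosed_iInter fun y => isClosed_iInter fun _ => isClosed_iInter fun ξ =>
        isClosed_iInter fun η => isClosed_eq (continuous_apply _) (continuous_apply _)
    have c8 : IsClosed {f : H × H → ℂ | ∀ p ∈ s, f p = phi x p} := by
      simp only [Set.ofPred_forall]
      exact isClosed_iInter fun p => isClosed_iInter fun _ =>
        isClosed_eq (continuous_apply _) continuous_const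
    exact c1.inter (c2.inter (c3.inter (c4.inter (c5.inter (c6.inter (c7.inter c8))))))
  · rintro f ⟨_, _, _, _, h5, _⟩ p _
    rw [mem_closedBall_zero_iff]
    exact h5 p.1 p.2

lemma extreme_step (M : VonNeumannAlgebra H) (s : Finset (H × H)) {x : H →L[ℂ] H} (hx : x ∈ M)
    (hxs : IsSelfAdjoint x) (hxn : ‖x‖ ≤ 1) :
    ∃ y ∈ M, IsSelfAdjoint y ∧ ‖y‖ ≤ 1 ∧ (∀ p ∈ s, phi y p = phi x p) ∧
      FiniteDimensional ℂ (bMb M (1 - y * y)) := by
  classical
  have hne : (KK M s x).Nonempty := ⟨phi x, x, ⟨hx, hxs, hxn, fun _ _ => rfl⟩, rfl⟩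
  obtain ⟨f, hf⟩ := (isCompact_KK M s x).extremePoints_nonempty hne
  rw [mem_extremePoints] at hf
  obtain ⟨⟨y, ⟨hyM, hys, hyn, hyp⟩, rfl⟩, hext⟩ := hf
  refine ⟨y, hyM, hys, hyn, hyp, ?_⟩
  set b := 1 - y * y with hb
  have hbM : b ∈ M := sub_mem (one_mem _) (mul_mem hyM hyM)
  have hbs : IsSelfAdjoint b := by
    rw [hb]
    exact (IsSelfAdjoint.one _).sub (by
      unfold IsSelfAdjoint; rw [star_mul, hys.star_eq])
  have hphi : ∀ (z w : H →L[ℂ] H) (c : ℂ) (p : H × H), phi (z + c • w) p =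
      phi z p + c * phi w p := by
    intro z w c p
    simp [phi, inner_add_right, inner_smul_right]
  -- selfadjoint case
  have key1 : ∀ a ∈ M, IsSelfAdjoint a → (∀ p ∈ s, phi (b * (a * b)) p = 0) →
      b * (a * b) = 0 := by
    intro a haM ha h0
    set t : ℝ := 1 / (8 * ‖a‖ + 1) with ht
    have htpos : 0 < t := by positivity
    have hta : 8 * t * ‖a‖ ≤ 1 := by
      rw [ht, mul_one_div, div_mul_eq_mul_div, div_le_one (by positivity)]
      linarith
    have hbab : IsSelfAdjoint (b * (a * b)) := by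
      unfold IsSelfAdjoint
      rw [star_mul, star_mul, hbs.star_eq, ha.star_eq, mul_assoc]
    have m1 : ∀ r : ℝ, |r| ≤ t → phi (y + (r : ℂ) • (b * (a * b))) ∈ KK M s x := by
      intro r hr
      refine ⟨_, ⟨?_, ?_, ?_, ?_⟩, rfl⟩
      · exact add_mem hyM (smul_mem' (mul_mem hbM (mul_mem haM hbM)) _)
      · refine hys.add ?_
        unfold IsSelfAdjoint
        rw [star_smul, hbab.star_eq, Complex.star_def, Complex.conj_ofReal]
      · rcases le_total 0 r with h | h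
        · refine pert hys hyn ha h ?_
          have : r ≤ t := (le_abs_self r).trans hr
          calc 8 * r * ‖a‖ ≤ 8 * t * ‖a‖ := by gcongr
            _ ≤ 1 := hta
        · have h1 := pert (a := -a) hys hyn ha.neg (t := -r) (by linarith) (by
            rw [norm_neg]
            have : -r ≤ t := (neg_le_abs r).trans hr
            calc 8 * (-r) * ‖a‖ ≤ 8 * t * ‖a‖ := by gcongr
              _ ≤ 1 := hta)
          have h2 : ((-r : ℝ) : ℂ) • ((1 - y * y) * (-a * (1 - y * y))) =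
              (r : ℂ) • (b * (a * b)) := by
            rw [← hb, neg_mul, mul_neg, smul_neg]
            push_cast
            rw [neg_smul, neg_neg]
          rwa [h2] at h1
      · intro p hp
        rw [hphi, h0 p hp, mul_zero, add_zero, hyp p hp]
    have h3 := hext _ (m1 t (by rw [abs_of_pos htpos])) _
      (m1 (-t) (by rw [abs_neg, abs_of_pos htpos])) (by
        refine ⟨1 / 2, 1 / 2, by norm_num, by norm_num, by norm_num, ?_⟩
        funext p
        simp only [Pi.add_apply, Pi.smul_apply, hphi, Complex.real_smul]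
        push_cast
        ring)
    have h4 := phi_inj h3.1
    have h5 : (t : ℂ) • (b * (a * b)) = 0 := by
      have : y + (t : ℂ) • (b * (a * b)) - y = 0 := by rw [h4, sub_self]
      rwa [add_sub_cancel_left] at this
    rcases smul_eq_zero.1 h5 with h6 | h6
    · exfalso
      exact htpos.ne' (by exact_mod_cast h6)
    · exact h6
  have key2 : ∀ a ∈ M, (∀ p ∈ s, phi (b * (a * b)) p = 0) →
      (∀ p ∈ s, phi (b * (a * b)) (p.2, p.1) = 0) → b * (a * b) = 0 := by
    intro a haM h1 h2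
    have hst : star (b * (a * b)) = b * (star a * b) := by
      rw [star_mul, star_mul, hbs.star_eq, mul_assoc]
    have h3 : ∀ p ∈ s, phi (b * (star a * b)) p = 0 := by
      intro p hp
      rw [← hst]
      have := h2 p hp
      simp only [phi] at this ⊢
      rw [ContinuousLinearMap.star_eq_adjoint, ContinuousLinearMap.adjoint_inner_right,
        ← inner_conj_symm, this, map_zero]
    have hadd : b * ((a + star a) * b) = b * (a * b) + b * (star a * b) := by noncomm_ring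
    have hsub : b * ((Complex.I • (a - star a)) * b) =
        Complex.I • (b * (a * b) - b * (star a * b)) := by
      rw [smul_mul_assoc, mul_smul_comm]; congr 1; noncomm_ring
    have k1 := key1 (a + star a) (add_mem haM (star_mem haM))
      (IsSelfAdjoint.add_star_self a) (by
        intro p hp
        rw [hadd]
        have := hphi (b * (a * b)) (b * (star a * b)) 1 p
        rw [one_smul] at this
        rw [this, h1 p hp, h3 p hp]
        simp)
    have k2 := key1 (Complex.I • (a - star a))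
      (smul_mem' (sub_mem haM (star_mem haM)) _) (by
        unfold IsSelfAdjoint
        rw [star_smul, star_sub, star_star, Complex.star_def, Complex.conj_I, neg_smul,
          ← smul_neg, neg_sub]) (by
        intro p hp
        rw [hsub]
        have h5 := hphi (b * (a * b)) (b * (star a * b)) (-1) p
        rw [neg_one_smul, ← sub_eq_add_neg] at h5
        have h6 : phi (Complex.I • (b * (a * b) - b * (star a * b))) p =
            Complex.I * phi (b * (a * b) - b * (star a * b)) p := by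
          simp [phi, inner_smul_right]
        rw [h6, h5, h1 p hp, h3 p hp]
        simp)
    rw [hadd] at k1
    rw [hsub] at k2
    have k3 : b * (a * b) - b * (star a * b) = 0 := by
      rcases smul_eq_zero.1 k2 with h | h
      · exact absurd h Complex.I_ne_zero
      · exact h
    have k4 : (2 : ℂ) • (b * (a * b)) = 0 := by
      rw [two_smul]
      calc b * (a * b) + b * (a * b) = (b * (a * b) + b * (star a * b)) +
          (b * (a * b) - b * (star a * b)) := by abel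
        _ = 0 := by rw [k1, k3, add_zero]
    rcases smul_eq_zero.1 k4 with h | h
    · exact absurd h two_ne_zero
    · exact h
  let Θ : bMb M b →ₗ[ℂ] ((s → ℂ) × (s → ℂ)) :=
    { toFun := fun z => (fun p => phi z.1 p.1, fun p => phi z.1 (p.1.2, p.1.1))
      map_add' := by
        intro z w
        ext p
        · simp [phi, inner_add_right]
        · simp [phi, inner_add_right]
      map_smul' := by
        intro c z
        ext p
        · simp [phi, inner_smul_right]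
        · simp [phi, inner_smul_right] }
  refine Module.Finite.of_injective Θ ?_
  rw [injective_iff_map_eq_zero]
  intro z hz
  obtain ⟨z, hz0⟩ := z
  obtain ⟨a, ha, rfl⟩ := mem_bMb.1 hz0
  apply Subtype.ext
  refine key2 a ha ?_ ?_
  · intro p hp
    exact congrFun (congrArg Prod.fst hz) ⟨p, hp⟩
  · intro p hp
    exact congrFun (congrArg Prod.snd hz) ⟨p, hp⟩

end Q88.Resid
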