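import Pool.Agent.Q88.Resid.Extreme

/-! # Self-adjoint contractions with `(1-y²) M (1-y²)` finite-dimensional -/

namespace Q88.Resid

open scoped InnerProductSpace
open Filter Topology

variable {H : Type*} [NormedAddCommGroup H] [InnerProductSpace ℂ H] [CompleteSpace H]

/-- spectral projections inside finite-dimensional corners -/
lemma spectral {M : VonNeumannAlgebra H} {b a : H →L[ℂ] H} (hbM : b ∈ M)
    [FiniteDimensional ℂ (bMb M b)] (ha : a ∈ bMb M b) (has : IsSelfAdjoint a) (ha0 : a ≠ 0) :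
    ∃ (P : H →L[ℂ] H) (t : ℝ), P ∈ M ∧ IsStarProjection P ∧ P ≠ 0 ∧ a * P = (t : ℂ) • P ∧
      P ∈ bMb M b ∧ ∀ c, IsSelfAdjoint c → c * a = a * c → c * P = P * c := by
  classical
  obtain ⟨m, hm, hma⟩ := mem_bMb.1 ha
  have haM : a ∈ M := by rw [← hma]; exact mul_mem hbM (mul_mem hm hbM)
  have hmulmem : ∀ x ∈ bMb M b, a * x ∈ bMb M b := by
    intro x hx
    obtain ⟨k, hk, rfl⟩ := mem_bMb.1 hx
    refine mem_bMb.2 ⟨m * b * b * k, mul_mem (mul_mem (mul_mem hm hbM) hbM) hk, ?_⟩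
    rw [← hma]
    simp only [mul_assoc]
  set V : Submodule ℂ (H →L[ℂ] H) := (bMb M b).map (LinearMap.mulLeft ℂ a) with hV
  have hVle : V ≤ bMb M b := by
    rintro _ ⟨x, hx, rfl⟩
    exact hmulmem x hx
  have hVfin : FiniteDimensional ℂ V := by rw [hV]; infer_instance
  have hVmul : ∀ x ∈ V, a * x ∈ V := fun x hx => ⟨x, hVle hx, rfl⟩
  have haa : a * a ∈ V := ⟨a, ha, rfl⟩
  have haa0 : a * a ≠ 0 := by
    intro h
    apply ha0
    rw [← CStarRing.star_mul_self_eq_zero_iff, has.star_eq, h]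
  have : Nontrivial V := ⟨⟨⟨a * a, haa⟩, 0, fun h => haa0 (congrArg Subtype.val h)⟩⟩
  let F : V →ₗ[ℂ] V :=
    { toFun := fun x => ⟨a * x.1, hVmul _ x.2⟩
      map_add' := by intro x y; apply Subtype.ext; simp [mul_add]
      map_smul' := by intro c x; apply Subtype.ext; simp }
  obtain ⟨μ, hμ⟩ := Module.End.exists_eigenvalue F
  obtain ⟨v, hv⟩ := hμ.exists_hasEigenvector
  have hv0 : v.1 ≠ 0 := fun h => hv.2 (Subtype.ext h)
  have hav : a * v.1 = μ • v.1 := congrArg Subtype.val hv.apply_eq_smul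
  have hμ0 : μ ≠ 0 := by
    rintro rfl
    rw [zero_smul] at hav
    obtain ⟨x, hx, hxv⟩ := v.2
    have hxv' : a * x = v.1 := hxv
    apply hv0
    rw [← CStarRing.star_mul_self_eq_zero_iff]
    calc star v.1 * v.1 = star x * (a * v.1) := by
          rw [← hxv', star_mul, has.star_eq]; simp only [mul_assoc]
      _ = 0 := by rw [hav, mul_zero]
  -- the eigenspace
  let U : Submodule ℂ H := LinearMap.ker ((a - μ • (1 : H →L[ℂ] H) : H →L[ℂ] H) : H →ₗ[ℂ] H)
  have hUm : ∀ ξ, ξ ∈ U ↔ a ξ = μ • ξ := by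
    intro ξ
    change (a - μ • (1 : H →L[ℂ] H)) ξ = 0 ↔ _
    rw [sub_apply, smul_apply, one_apply_eq_self, sub_eq_zero]
  have hUc : IsClosed (U : Set H) := by
    have : (U : Set H) = {ξ | a ξ = μ • ξ} := by ext ξ; exact hUm ξ
    rw [this]
    exact isClosed_eq a.continuous (continuous_const.smul continuous_id)
  have : CompleteSpace U := hUc.completeSpace_coe
  obtain ⟨ζ, hζ⟩ : ∃ ζ, v.1 ζ ≠ 0 := by
    by_contra hcon
    push Not at hcon
    exact hv0 (by ext ξ; simpa using hcon ξ)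
  have hζU : v.1 ζ ∈ U := by
    rw [hUm, ← mul_apply_eq_comp, hav, smul_apply]
  have hμr : ((μ.re : ℝ) : ℂ) = μ := by
    have h1 := has.isSymmetric (v.1 ζ) (v.1 ζ)
    simp only [ContinuousLinearMap.coe_coe] at h1
    rw [(hUm _).1 hζU, inner_smul_left, inner_smul_right] at h1
    have h2 : ⟪v.1 ζ, v.1 ζ⟫_ℂ ≠ 0 := fun h => hζ (inner_self_eq_zero.1 h)
    have h3 := mul_right_cancel₀ h2 h1
    exact (Complex.conj_eq_iff_re.1 h3)
  have haP : a * U.starProjection = μ • U.starProjection := by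
    ext ξ
    rw [mul_apply_eq_comp, smul_apply]
    exact (hUm _).1 (Submodule.starProjection_apply_mem U ξ)
  have hPM : U.starProjection ∈ M := by
    refine starProjection_mem M U fun y hy ξ hξ => ?_
    rw [hUm] at hξ ⊢
    have h1 := (VonNeumannAlgebra.mem_commutant_iff.1 hy) a haM
    rw [← mul_apply_eq_comp, h1, mul_apply_eq_comp, hξ, map_smul]
  have hPp : IsStarProjection U.starProjection := isStarProjection_starProjection
  have hPa : U.starProjection * a = μ • U.starProjection := by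
    have := congrArg star haP
    rw [star_mul, star_smul, has.star_eq, hPp.isSelfAdjoint.star_eq, Complex.star_def,
      Complex.conj_eq_iff_re.2 hμr] at this
    exact this
  refine ⟨U.starProjection, μ.re, hPM, hPp, ?_, ?_, ?_, ?_⟩
  · intro h0
    have h2 := Submodule.starProjection_eq_self_iff.2 hζU
    rw [h0] at h2
    exact hζ (by simpa using h2.symm)
  · rw [hμr]; exact haP
  · -- membership
    have h1 : a * (U.starProjection * a) = (μ * μ) • U.starProjection := by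
      rw [hPa, mul_smul_comm, haP, smul_smul]
    have h2 : a * (U.starProjection * a) ∈ bMb M b := by
      refine mem_bMb.2 ⟨m * (b * (U.starProjection * (b * m))), ?_, ?_⟩
      · exact mul_mem hm (mul_mem hbM (mul_mem hPM (mul_mem hbM hm)))
      · rw [← hma]; simp only [mul_assoc]
    have h3 : U.starProjection = (μ * μ)⁻¹ • (a * (U.starProjection * a)) := by
      rw [h1, smul_smul, inv_mul_cancel₀ (mul_ne_zero hμ0 hμ0), one_smul]
    rw [h3]
    exact Submodule.smul_mem _ _ h2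
  · intro c hc hca
    have hcU : ∀ ξ ∈ U, c ξ ∈ U := by
      intro ξ hξ
      rw [hUm] at hξ ⊢
      rw [← mul_apply_eq_comp, ← hca, mul_apply_eq_comp, hξ, map_smul]
    have h1 : U.starProjection * (c * U.starProjection) = c * U.starProjection := by
      ext ξ
      rw [mul_apply_eq_comp, mul_apply_eq_comp]
      exact Submodule.starProjection_eq_self_iff.2 (hcU _ (Submodule.starProjection_apply_mem U ξ))
    have h2 := congrArg star h1
    rw [star_mul, star_mul, hPp.isSelfAdjoint.star_eq, hc.star_eq] at h2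
    rw [← h1, ← h2, mul_assoc]

lemma bMb_le {M : VonNeumannAlgebra H} {b P : H →L[ℂ] H} (hbM : b ∈ M)
    (hP : P ∈ bMb M b) : bMb M P ≤ bMb M b := by
  intro z hz
  obtain ⟨m, hm, hmP⟩ := mem_bMb.1 hP
  obtain ⟨a, ha, rfl⟩ := mem_bMb.1 hz
  refine mem_bMb.2 ⟨m * (b * (a * (b * m))), ?_, ?_⟩
  · exact mul_mem hm (mul_mem hbM (mul_mem ha (mul_mem hbM hm)))
  · rw [← hmP]; simp only [mul_assoc]

/-- selection of a minimal projection commuting with `y` -/
lemma exists_min {M : VonNeumannAlgebra H} {y : H →L[ℂ] H} (hyM : y ∈ M)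
    (hys : IsSelfAdjoint y) [FiniteDimensional ℂ (bMb M (1 - y * y))] (hb0 : 1 - y * y ≠ 0) :
    ∃ (P : H →L[ℂ] H) (t : ℝ), IsMin M P ∧ y * P = (t : ℂ) • P ∧ P ∈ bMb M (1 - y * y) := by
  classical
  set b := 1 - y * y with hb
  have hbM : b ∈ M := sub_mem (one_mem _) (mul_mem hyM hyM)
  have hbs : IsSelfAdjoint b := by
    rw [hb]
    exact (IsSelfAdjoint.one _).sub (by
      unfold IsSelfAdjoint; rw [star_mul, hys.star_eq])
  have hyb : y * b = b * y := by rw [hb]; noncomm_ring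
  -- the set of candidates
  let C : (H →L[ℂ] H) → Prop := fun P => P ∈ M ∧ IsStarProjection P ∧ P ≠ 0 ∧
    P ∈ bMb M b ∧ y * P = P * y
  have hex : ∃ P, C P := by
    have h1 : b * (b * b) ∈ bMb M b := mem_bMb.2 ⟨b, hbM, rfl⟩
    have h2 : IsSelfAdjoint (b * (b * b)) := by
      unfold IsSelfAdjoint
      rw [star_mul, star_mul, hbs.star_eq, mul_assoc]
    have h3 : b * (b * b) ≠ 0 := by
      intro h
      have h4 : b * b = 0 := by
        rw [← CStarRing.star_mul_self_eq_zero_iff, star_mul, hbs.star_eq]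
        calc b * b * (b * b) = b * (b * (b * b)) := by simp only [mul_assoc]
          _ = 0 := by rw [h, mul_zero]
      apply hb0
      rw [← CStarRing.star_mul_self_eq_zero_iff, hbs.star_eq, h4]
    obtain ⟨P, t, hP1, hP2, hP3, _, hP5, hP6⟩ := spectral hbM h1 h2 h3
    refine ⟨P, hP1, hP2, hP3, hP5, hP6 y hys ?_⟩
    have hc : Commute y b := hyb
    exact (hc.mul_right (hc.mul_right hc)).eq
  -- minimal one
  let n : (H →L[ℂ] H) → ℕ := fun P => Module.finrank ℂ (bMb M P)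
  have hexn : ∃ k, ∃ P, C P ∧ n P = k := ⟨_, hex.choose, hex.choose_spec, rfl⟩
  obtain ⟨P, hCP, hnP⟩ := Nat.find_spec hexn
  have hmin : ∀ Q, C Q → n P ≤ n Q := fun Q hQ => by
    rw [hnP]; exact Nat.find_min' hexn ⟨Q, hQ, rfl⟩
  obtain ⟨hPM, hPp, hP0, hPb, hyP⟩ := hCP
  have hPP : P * P = P := hPp.isIdempotentElem
  have hPs : star P = P := hPp.isSelfAdjoint
  have hPfin : FiniteDimensional ℂ (bMb M P) :=
    Submodule.finiteDimensional_of_le (bMb_le hbM hPb)
  have hPPm : P ∈ bMb M P := mem_bMb.2 ⟨P, hPM, by rw [hPP, hPP]⟩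
  have huniq : ∀ Q, Q ∈ M → IsStarProjection Q → Q ≠ 0 → Q ∈ bMb M P → y * Q = Q * y →
      Q = P := by
    intro Q hQM hQp hQ0 hQP hyQ
    have hle : bMb M Q ≤ bMb M P := bMb_le hPM hQP
    have h1 : n P ≤ n Q := hmin Q ⟨hQM, hQp, hQ0, bMb_le hbM hPb hQP, hyQ⟩
    have h2 : bMb M Q = bMb M P := Submodule.eq_of_le_of_finrank_le hle h1
    obtain ⟨k, _, hk⟩ := mem_bMb.1 (h2 ▸ hPPm : P ∈ bMb M Q)
    have h3 : Q * P = P := by
      have hQQ : Q * Q = Q := hQp.isIdempotentElem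
      rw [← hk, ← mul_assoc, hQQ]
    obtain ⟨k', _, hk'⟩ := mem_bMb.1 hQP
    have h4 : Q * P = Q := by
      rw [← hk']; simp only [mul_assoc]; rw [hPP]
    rw [← h4, h3]
  -- eigenvalue
  have hyP1 : ∃ t : ℝ, y * P = (t : ℂ) • P := by
    by_cases h0 : y * P = 0
    · exact ⟨0, by simp [h0]⟩
    have h1 : y * P ∈ bMb M P := by
      refine mem_bMb.2 ⟨y, hyM, ?_⟩
      rw [hyP, ← mul_assoc, hPP]
    have h2 : IsSelfAdjoint (y * P) := by
      unfold IsSelfAdjoint
      rw [star_mul, hys.star_eq, hPs, hyP]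
    obtain ⟨Q, t, hQ1, hQ2, hQ3, hQ4, hQ5, hQ6⟩ := spectral hPM h1 h2 h0
    have hQP : Q = P := huniq Q hQ1 hQ2 hQ3 hQ5 (hQ6 y hys (by rw [hyP, ← mul_assoc, hyP]))
    rw [hQP] at hQ4
    refine ⟨t, ?_⟩
    rw [← hQ4, mul_assoc, hPP]
  obtain ⟨t, ht⟩ := hyP1
  have hPy : P * y = (t : ℂ) • P := by rw [← hyP, ht]
  -- minimality
  have hsa : ∀ c ∈ bMb M P, IsSelfAdjoint c → ∃ r : ℂ, c = r • P := by
    intro c hc hcs
    by_cases h0 : c = 0
    · exact ⟨0, by simp [h0]⟩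
    obtain ⟨Q, r, hQ1, hQ2, hQ3, hQ4, hQ5, _⟩ := spectral hPM hc hcs h0
    obtain ⟨k', _, hk'⟩ := mem_bMb.1 hQ5
    have hQP : Q * P = Q := by
      rw [← hk']; simp only [mul_assoc]; rw [hPP]
    have hPQ : P * Q = Q := by
      rw [← hk', ← mul_assoc, hPP]
    have hyQ : y * Q = (t : ℂ) • Q := by
      rw [← hPQ, ← mul_assoc, ht, smul_mul_assoc]
    have hQy : Q * y = (t : ℂ) • Q := by
      rw [← hQP, mul_assoc, hPy, mul_smul_comm]
    have hQP' : Q = P := huniq Q hQ1 hQ2 hQ3 hQ5 (by rw [hyQ, hQy])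
    rw [hQP'] at hQ4
    obtain ⟨k, _, hk⟩ := mem_bMb.1 hc
    refine ⟨r, ?_⟩
    rw [← hQ4, ← hk]
    simp only [mul_assoc]
    rw [hPP]
  refine ⟨P, t, ⟨hPM, hPp, hP0, ?_⟩, ht, hPb⟩
  intro x hx
  have hstar : star (P * (x * P)) = P * (star x * P) := by
    rw [star_mul, star_mul, hPs, mul_assoc]
  obtain ⟨r1, hr1⟩ := hsa (P * ((x + star x) * P)) (mem_bMb.2 ⟨_, add_mem hx (star_mem hx), rfl⟩)
    (by
      unfold IsSelfAdjoint
      rw [star_mul, star_mul, hPs, star_add, star_star, mul_assoc, add_comm])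
  obtain ⟨r2, hr2⟩ := hsa (P * ((Complex.I • (x - star x)) * P))
    (mem_bMb.2 ⟨_, smul_mem' (sub_mem hx (star_mem hx)) _, rfl⟩)
    (by
      unfold IsSelfAdjoint
      rw [star_mul, star_mul, hPs, star_smul, star_sub, star_star, Complex.star_def,
        Complex.conj_I, neg_smul, ← smul_neg, neg_sub, mul_assoc])
  refine ⟨(2 : ℂ)⁻¹ * (r1 - Complex.I * r2), ?_⟩
  have e1 : P * x * P = (2 : ℂ)⁻¹ • (P * ((x + star x) * P) -
      Complex.I • (P * ((Complex.I • (x - star x)) * P))) := by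
    have e2 : Complex.I • (P * ((Complex.I • (x - star x)) * P)) =
        -(P * ((x - star x) * P)) := by
      rw [smul_mul_assoc, mul_smul_comm, smul_smul, Complex.I_mul_I, neg_one_smul]
    rw [e2, sub_neg_eq_add]
    have e3 : P * ((x + star x) * P) + P * ((x - star x) * P) = (2 : ℂ) • (P * x * P) := by
      rw [two_smul]
      noncomm_ring
    rw [e3, smul_smul]
    norm_num
  rw [e1, hr1, hr2, smul_smul, ← sub_smul, smul_smul]

lemma norm_split {P y : H →L[ℂ] H} (hP : IsStarProjection P) (hy : ‖y‖ ≤ 1)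
    (hyP : y * P = P * y) : ‖y * (1 - P) + P‖ ≤ 1 := by
  have hPP : P * P = P := hP.isIdempotentElem
  refine ContinuousLinearMap.opNorm_le_bound _ zero_le_one fun ζ => ?_
  rw [one_mul]
  have h1 : ⟪y (ζ - P ζ), P ζ⟫_ℂ = 0 := by
    have hs := hP.isSelfAdjoint.isSymmetric (y (ζ - P ζ)) ζ
    simp only [ContinuousLinearMap.coe_coe] at hs
    rw [← hs, ← mul_apply_eq_comp, ← hyP, mul_apply_eq_comp, map_sub, ← mul_apply_eq_comp, hPP,
      sub_self, map_zero, inner_zero_left]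
  have h2 : ⟪ζ - P ζ, P ζ⟫_ℂ = 0 := by
    have hs := hP.isSelfAdjoint.isSymmetric (ζ - P ζ) ζ
    simp only [ContinuousLinearMap.coe_coe] at hs
    rw [← hs, map_sub, ← mul_apply_eq_comp, hPP, sub_self, inner_zero_left]
  have h3 : (y * (1 - P) + P) ζ = y (ζ - P ζ) + P ζ := by
    rw [add_apply, mul_apply_eq_comp, sub_apply, one_apply_eq_self]
  have h4 : ‖y (ζ - P ζ) + P ζ‖ ^ 2 = ‖y (ζ - P ζ)‖ ^ 2 + ‖P ζ‖ ^ 2 := by
    rw [@norm_add_sq ℂ, h1]; simp
  have h5 : ‖ζ‖ ^ 2 = ‖ζ - P ζ‖ ^ 2 + ‖P ζ‖ ^ 2 := by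
    have : ζ = (ζ - P ζ) + P ζ := by abel
    conv_lhs => rw [this]
    rw [@norm_add_sq ℂ, h2]; simp
  have h6 : ‖y (ζ - P ζ)‖ ≤ ‖ζ - P ζ‖ := by
    calc ‖y (ζ - P ζ)‖ ≤ ‖y‖ * ‖ζ - P ζ‖ := y.le_opNorm _
      _ ≤ 1 * ‖ζ - P ζ‖ := by gcongr
      _ = _ := one_mul _
  rw [h3]
  refine le_of_sq_le_sq ?_ (norm_nonneg _)
  rw [h4, h5]
  gcongr

lemma ap_of_fin {M : VonNeumannAlgebra H} (hM : ¬ HasFinDimSummand M) :
    ∀ n : ℕ, ∀ y ∈ M, IsSelfAdjoint y → ‖y‖ ≤ 1 → FiniteDimensional ℂ (bMb M (1 - y * y)) →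
      Module.finrank ℂ (bMb M (1 - y * y)) ≤ n → Ap M y := by
  intro n
  induction n using Nat.strong_induction_on with
  | _ n ih =>
  intro y hyM hys hyn hfin hrank
  by_cases hb0 : 1 - y * y = 0
  · refine Ap.of_isU ⟨hyM, ?_, ?_⟩
    · rw [hys.star_eq]; exact (sub_eq_zero.1 hb0).symm
    · rw [hys.star_eq]; exact (sub_eq_zero.1 hb0).symm
  obtain ⟨P, t, hPmin, hyP, hPb⟩ := exists_min hyM hys hb0
  have hPP : P * P = P := hPmin.proj.isIdempotentElem
  have hPs : star P = P := hPmin.proj.isSelfAdjoint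
  have hPy : P * y = (t : ℂ) • P := by
    have := congrArg star hyP
    rwa [star_mul, star_smul, hys.star_eq, hPs, Complex.star_def, Complex.conj_ofReal] at this
  have hcomm : y * P = P * y := by rw [hyP, hPy]
  have ht : |t| ≤ 1 := by
    obtain ⟨ζ, hζ, hζ0⟩ := exists_unit_vec hPmin.proj hPmin.ne
    have h1 : y ζ = (t : ℂ) • ζ := by
      conv_lhs => rw [← hζ]
      rw [← mul_apply_eq_comp, hyP, smul_apply, hζ]
    have h2 : ‖y ζ‖ ≤ 1 * ‖ζ‖ := (y.le_opNorm ζ).trans (by gcongr)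
    rw [h1, norm_smul, Complex.norm_real, Real.norm_eq_abs] at h2
    exact le_of_mul_le_mul_right h2 (norm_pos_iff.2 hζ0)
  set b := 1 - y * y with hb
  have hbM : b ∈ M := sub_mem (one_mem _) (mul_mem hyM hyM)
  set y1 := y * (1 - P) + P with hy1
  have hbP : b * P = P * b := by
    rw [hb, sub_mul, mul_sub, one_mul, mul_one, mul_assoc, hcomm, ← mul_assoc, hcomm, mul_assoc]
  have hb1 : 1 - y1 * y1 = b * (1 - P) := by
    have e1 : y1 * y1 = y * y * (1 - P) + P := by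
      rw [hy1]
      calc (y * (1 - P) + P) * (y * (1 - P) + P)
          = y * (y - P * y) * (1 - P) + (y * P - y * (P * P)) + (P * y - (P * y) * P) + P * P := by
            noncomm_ring
        _ = y * y * (1 - P) + P := by
            rw [hPP, hPy]
            have this1 : (y - (t : ℂ) • P) * (1 - P) = y * (1 - P) := by
              rw [sub_mul, smul_mul_assoc, mul_sub P, mul_one, hPP, sub_self, smul_zero, sub_zero]
            have : y * (y - (t : ℂ) • P) * (1 - P) = y * y * (1 - P) := by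
              rw [mul_assoc, this1, ← mul_assoc]
            rw [this, smul_mul_assoc, hPP]
            abel
    rw [e1, hb]
    noncomm_ring
  have hy1M : y1 ∈ M := add_mem (mul_mem hyM (sub_mem (one_mem _) hPmin.mem)) hPmin.mem
  have hy1s : IsSelfAdjoint y1 := by
    unfold IsSelfAdjoint
    rw [hy1, star_add, star_mul, star_sub, star_one, hPs, hys.star_eq]
    rw [sub_mul, mul_sub, one_mul, mul_one, hcomm]
  have hy1n : ‖y1‖ ≤ 1 := norm_split hPmin.proj hyn hcomm
  have hle : bMb M (1 - y1 * y1) ≤ bMb M b := by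
    rw [hb1]
    intro z hz
    obtain ⟨a, ha, rfl⟩ := mem_bMb.1 hz
    refine mem_bMb.2 ⟨(1 - P) * (a * (1 - P)), ?_, ?_⟩
    · exact mul_mem (sub_mem (one_mem _) hPmin.mem)
        (mul_mem ha (sub_mem (one_mem _) hPmin.mem))
    · have : (1 - P) * b = b * (1 - P) := by
        calc (1 - P) * b = b - P * b := by rw [sub_mul, one_mul]
          _ = b - b * P := by rw [hbP]
          _ = b * (1 - P) := by rw [mul_sub b, mul_one]
      simp only [mul_assoc]
      rw [this]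
  have hlt : bMb M (1 - y1 * y1) < bMb M b := by
    refine lt_of_le_of_ne hle fun heq => ?_
    rw [← heq, hb1] at hPb
    obtain ⟨a, ha, haP⟩ := mem_bMb.1 hPb
    apply hPmin.ne
    calc P = P * P := hPP.symm
      _ = P * (b * (1 - P) * (a * (b * (1 - P)))) := by rw [haP]
      _ = (P * b) * (1 - P) * (a * (b * (1 - P))) := by simp only [mul_assoc]
      _ = b * (P * (1 - P)) * (a * (b * (1 - P))) := by rw [← hbP]; simp only [mul_assoc]
      _ = 0 := by rw [mul_sub, mul_one, hPP, sub_self, mul_zero, zero_mul]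
  have hfin1 : FiniteDimensional ℂ (bMb M (1 - y1 * y1)) := Submodule.finiteDimensional_of_le hle
  have hr1 : Module.finrank ℂ (bMb M (1 - y1 * y1)) < Module.finrank ℂ (bMb M b) :=
    Submodule.finrank_lt_finrank_of_lt hlt
  have hA1 : Ap M y1 := ih _ (lt_of_lt_of_le hr1 hrank) y1 hy1M hy1s hy1n hfin1 le_rfl
  have hA2 : Ap M (1 - P + (t : ℂ) • P) := minProj_ap hPmin hM t ht
  have hA := hA1.mul hA2
  have e : y1 * (1 - P + (t : ℂ) • P) = y := by
    rw [hy1]
    have f1 : P * (1 - P) = 0 := by rw [mul_sub, mul_one, hPP, sub_self]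
    have f2 : (1 - P) * P = 0 := by rw [sub_mul, one_mul, hPP, sub_self]
    have e1 : (1 - P) * (1 - P + (t : ℂ) • P) = 1 - P := by
      rw [mul_add, mul_smul_comm, f2, smul_zero, add_zero, sub_mul, one_mul, f1, sub_zero]
    have e2 : P * (1 - P + (t : ℂ) • P) = (t : ℂ) • P := by
      rw [mul_add, mul_sub, mul_one, hPP, sub_self, zero_add, mul_smul_comm, hPP]
    rw [add_mul, mul_assoc, e1, e2, ← hyP]
    noncomm_ring
  rwa [e] at hA

/-- every self-adjoint contraction is a weak limit of unitaries. -/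
lemma ap_of_selfAdjoint {M : VonNeumannAlgebra H} (hM : ¬ HasFinDimSummand M)
    {x : H →L[ℂ] H} (hx : x ∈ M) (hxs : IsSelfAdjoint x) (hxn : ‖x‖ ≤ 1) : Ap M x := by
  refine Ap.of_finset fun s => ?_
  obtain ⟨y, hyM, hys, hyn, hyp, hfin⟩ := extreme_step M s hx hxs hxn
  exact ⟨y, ap_of_fin hM _ y hyM hys hyn hfin le_rfl, hyp⟩

end Q88.Resid
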