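import Pool.Agent.Q88.Resid.Minimal

/-! # `1 - q + λ q` is a weak limit of unitaries for `q` minimal -/

namespace Q88.Resid

open scoped InnerProductSpace
open Filter Topology

variable {H : Type*} [NormedAddCommGroup H] [InnerProductSpace ℂ H] [CompleteSpace H]

lemma norm_star_apply_sq (v : H →L[ℂ] H) (ζ : H) :
    ‖star v ζ‖ ^ 2 = (⟪ζ, (v * star v) ζ⟫_ℂ).re := by
  rw [mul_apply_eq_comp, ContinuousLinearMap.star_eq_adjoint,
    ← ContinuousLinearMap.adjoint_inner_left, inner_self_eq_norm_sq_to_K]
  norm_cast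

lemma bessel {q : H →L[ℂ] H} (v : ℕ → (H →L[ℂ] H)) (h1 : ∀ n, star (v n) * v n = q)
    (h2 : ∀ n, v n * q = v n) (h3 : ∀ m n, m ≠ n → star (v m) * v n = 0) (ζ : H) :
    Tendsto (fun n => star (v n) ζ) atTop (𝓝 0) := by
  classical
  have hS : ∀ N : ℕ, IsStarProjection (∑ n ∈ Finset.range N, v n * star (v n)) := by
    intro N
    refine ⟨?_, ?_⟩
    · unfold IsIdempotentElem
      rw [Finset.sum_mul_sum]
      refine Finset.sum_congr rfl fun i hi => ?_
      rw [Finset.sum_eq_single i]
      · calc v i * star (v i) * (v i * star (v i)) = v i * (star (v i) * v i) * star (v i) := by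
              simp only [mul_assoc]
          _ = v i * star (v i) := by rw [h1, h2]
      · intro j _ hj
        calc v i * star (v i) * (v j * star (v j)) = v i * (star (v i) * v j) * star (v j) := by
              simp only [mul_assoc]
          _ = 0 := by rw [h3 i j hj.symm]; simp
      · intro h; exact absurd hi h
    · unfold IsSelfAdjoint
      rw [star_sum]
      refine Finset.sum_congr rfl fun i _ => ?_
      rw [star_mul, star_star]
  have hB : ∀ N : ℕ, ∑ n ∈ Finset.range N, ‖star (v n) ζ‖ ^ 2 ≤ ‖ζ‖ ^ 2 := by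
    intro N
    have e1 : ∑ n ∈ Finset.range N, ‖star (v n) ζ‖ ^ 2 =
        (⟪ζ, (∑ n ∈ Finset.range N, v n * star (v n)) ζ⟫_ℂ).re := by
      rw [ContinuousLinearMap.sum_apply, inner_sum, Complex.re_sum]
      exact Finset.sum_congr rfl fun n _ => norm_star_apply_sq _ _
    rw [e1]
    set P := ∑ n ∈ Finset.range N, v n * star (v n) with hP
    have hPn : ‖P‖ ≤ 1 := (hS N).norm_le
    calc (⟪ζ, P ζ⟫_ℂ).re ≤ ‖⟪ζ, P ζ⟫_ℂ‖ := Complex.re_le_norm _
      _ ≤ ‖ζ‖ * ‖P ζ‖ := norm_inner_le_norm _ _
      _ ≤ ‖ζ‖ * (1 * ‖ζ‖) := by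
          gcongr
          exact (P.le_opNorm ζ).trans (by gcongr)
      _ = ‖ζ‖ ^ 2 := by ring
  have hsum : Summable fun n => ‖star (v n) ζ‖ ^ 2 :=
    summable_of_sum_range_le (fun n => by positivity) hB
  have ht := hsum.tendsto_atTop_zero
  have ht2 : Tendsto (fun n => ‖star (v n) ζ‖) atTop (𝓝 0) := by
    have := (Real.continuous_sqrt.tendsto 0).comp ht
    simpa [Function.comp_def, Real.sqrt_sq (norm_nonneg _)] using this
  exact tendsto_zero_iff_norm_tendsto_zero.2 ht2

lemma minProj_ap {M : VonNeumannAlgebra H} {q : H →L[ℂ] H} (hq : IsMin M q)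
    (hM : ¬ HasFinDimSummand M) (t : ℝ) (ht : |t| ≤ 1) : Ap M (1 - q + (t : ℂ) • q) := by
  obtain ⟨v, hv, hvo⟩ := exists_seq hq hM
  have hqq : q * q = q := hq.proj.isIdempotentElem
  have hqs : star q = q := hq.proj.isSelfAdjoint
  have hvq : ∀ n, v n * q = v n := by
    intro n
    have h1 : star (v n) * v n = q := (hv n).2.1
    have h2 : star (v n * (1 - q)) * (v n * (1 - q)) = 0 := by
      calc star (v n * (1 - q)) * (v n * (1 - q))
          = (1 - star q) * (star (v n) * v n) * (1 - q) := by
            rw [star_mul, star_sub, star_one]; simp only [mul_assoc]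
        _ = q - q * q - q * q + q * q * q := by rw [h1, hqs]; noncomm_ring
        _ = 0 := by rw [hqq, hqq]; noncomm_ring
    have h3 : v n * (1 - q) = 0 := by
      rwa [CStarRing.star_mul_self_eq_zero_iff] at h2
    rw [mul_sub, mul_one, sub_eq_zero] at h3
    exact h3.symm
  set s : ℝ := Real.sqrt (1 - t ^ 2) with hs
  have hs2 : s ^ 2 = 1 - t ^ 2 := by
    rw [hs, Real.sq_sqrt]
    nlinarith [abs_le.1 ht]
  have hb := bessel v (fun n => (hv n).2.1) hvq hvo
  -- the unitaries
  have hU : ∀ n, IsU M (1 + ((t - 1 : ℝ) : ℂ) • (q + v n * star (v n)) +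
      (s : ℂ) • (v n - star (v n))) := by
    intro n
    obtain ⟨hvM, hvv, hqv⟩ := hv n
    set w := v n with hw
    have hwq : w * q = w := hvq n
    have hqw : q * star w = star w := by
      have := congrArg star hwq
      rwa [star_mul, hqs] at this
    have hsq : star w * q = 0 := by
      have := congrArg star hqv
      rwa [star_mul, hqs, star_zero] at this
    have hww : w * w = 0 := by
      calc w * w = w * q * w := by rw [hwq]
        _ = w * (q * w) := by rw [mul_assoc]
        _ = 0 := by rw [hqv, mul_zero]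
    have hss : star w * star w = 0 := by
      have := congrArg star hww
      rwa [star_mul, star_zero] at this
    set r := q + w * star w with hr
    set d := w - star w with hd
    have hrs : star r = r := by rw [hr, star_add, star_mul, star_star, hqs]
    have hds : star d = -d := by rw [hd, star_sub, star_star]; abel
    have hrw : r * w = w := by
      rw [hr, add_mul, hqv, zero_add, mul_assoc, hvv, hwq]
    have hwr : w * r = w := by
      rw [hr, mul_add, hwq, ← mul_assoc, hww, zero_mul, add_zero]
    have hrs' : r * star w = star w := by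
      rw [hr, add_mul, hqw, mul_assoc, hss, mul_zero, add_zero]
    have hsr : star w * r = star w := by
      rw [hr, mul_add, hsq, zero_add, ← mul_assoc, hvv, hqw]
    have hrr : r * r = r := by
      conv_lhs => rw [hr]
      rw [add_mul, mul_assoc, hsr]
      have : q * r = q := by
        rw [hr, mul_add, hqq, ← mul_assoc, hqv, zero_mul, add_zero]
      rw [this]
    have hrd : r * d = d := by rw [hd, mul_sub, hrw, hrs']
    have hdr : d * r = d := by rw [hd, sub_mul, hwr, hsr]
    have hdd : d * d = -r := by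
      rw [hd, sub_mul, mul_sub, mul_sub, hww, hvv, hss, hr]; abel
    set a : ℂ := ((t - 1 : ℝ) : ℂ) with ha
    set b : ℂ := (s : ℂ) with hb
    have hast : star a = a := by rw [ha, Complex.star_def, Complex.conj_ofReal]
    have hbst : star b = b := by rw [hb, Complex.star_def, Complex.conj_ofReal]
    have hab : a + a + a * a + b * b = 0 := by
      rw [ha, hb]
      norm_cast
      nlinarith
    refine ⟨?_, ?_, ?_⟩
    · refine add_mem (add_mem (one_mem _) (smul_mem' ?_ _)) (smul_mem' ?_ _)
      · exact add_mem hq.mem (mul_mem hvM (star_mem hvM))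
      · exact sub_mem hvM (star_mem hvM)
    · have e1 : star (1 + a • r + b • d) = 1 + a • r - b • d := by
        rw [star_add, star_add, star_smul, star_smul, hrs, hds, hast, hbst, star_one, smul_neg,
          sub_eq_add_neg]
      rw [e1]
      calc (1 + a • r - b • d) * (1 + a • r + b • d)
          = 1 + (a + a) • r + (a * a) • (r * r) + (a * b) • (r * d) - (a * b) • (d * r)
            - (b * b) • (d * d) := by
            simp only [add_mul, sub_mul, mul_add, one_mul, mul_one, smul_mul_smul_comm,
              add_smul]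
            rw [mul_comm b a]
            abel
        _ = 1 + (a + a + a * a + b * b) • r := by
            rw [hrr, hrd, hdr, hdd]
            simp only [add_smul, smul_neg]
            abel
        _ = 1 := by rw [hab]; simp
    · have e1 : star (1 + a • r + b • d) = 1 + a • r - b • d := by
        rw [star_add, star_add, star_smul, star_smul, hrs, hds, hast, hbst, star_one, smul_neg,
          sub_eq_add_neg]
      rw [e1]
      calc (1 + a • r + b • d) * (1 + a • r - b • d)
          = 1 + (a + a) • r + (a * a) • (r * r) - (a * b) • (r * d) + (a * b) • (d * r)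
            - (b * b) • (d * d) := by
            simp only [add_mul, mul_sub, mul_add, one_mul, mul_one, smul_mul_smul_comm,
              add_smul]
            rw [mul_comm b a]
            abel
        _ = 1 + (a + a + a * a + b * b) • r := by
            rw [hrr, hrd, hdr, hdd]
            simp only [add_smul, smul_neg]
            abel
        _ = 1 := by rw [hab]; simp
  refine Ap.of_tendsto (fun n => Ap.of_isU (hU n)) fun ξ η => ?_
  have e : ∀ n, ⟪ξ, (1 + ((t - 1 : ℝ) : ℂ) • (q + v n * star (v n)) +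
      (s : ℂ) • (v n - star (v n))) η⟫_ℂ = ⟪ξ, (1 - q + (t : ℂ) • q) η⟫_ℂ +
      (((t - 1 : ℝ) : ℂ) * ⟪star (v n) ξ, star (v n) η⟫_ℂ +
        (s : ℂ) * (⟪star (v n) ξ, η⟫_ℂ - ⟪ξ, star (v n) η⟫_ℂ)) := by
    intro n
    have e2 : ⟪star (v n) ξ, star (v n) η⟫_ℂ = ⟪ξ, v n (star (v n) η)⟫_ℂ := by
      rw [ContinuousLinearMap.star_eq_adjoint, ContinuousLinearMap.adjoint_inner_left]
    have e3 : ⟪star (v n) ξ, η⟫_ℂ = ⟪ξ, v n η⟫_ℂ := by
      rw [ContinuousLinearMap.star_eq_adjoint, ContinuousLinearMap.adjoint_inner_left]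
    rw [e2, e3]
    simp only [add_apply, smul_apply, sub_apply, mul_apply_eq_comp, one_apply_eq_self,
      inner_add_right, inner_sub_right, inner_smul_right, smul_add]
    push_cast
    ring
  simp_rw [e]
  have hz : ∀ ζ : H, Tendsto (fun n => star (v n) ζ) atTop (𝓝 0) := hb
  have t1 : Tendsto (fun n => ⟪star (v n) ξ, star (v n) η⟫_ℂ) atTop (𝓝 ⟪(0 : H), (0 : H)⟫_ℂ) :=
    (hz ξ).inner (hz η)
  have t2 : Tendsto (fun n => ⟪star (v n) ξ, η⟫_ℂ) atTop (𝓝 ⟪(0 : H), η⟫_ℂ) :=
    (hz ξ).inner tendsto_const_nhds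
  have t3 : Tendsto (fun n => ⟪ξ, star (v n) η⟫_ℂ) atTop (𝓝 ⟪ξ, (0 : H)⟫_ℂ) :=
    tendsto_const_nhds.inner (hz η)
  have := tendsto_const_nhds (x := ⟪ξ, (1 - q + (t : ℂ) • q) η⟫_ℂ) (f := atTop (α := ℕ)) |>.add
    ((t1.const_mul (((t - 1 : ℝ) : ℂ))).add ((t2.sub t3).const_mul (s : ℂ)))
  simpa using this

end Q88.Resid
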