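import Pool.Agent.Q88.Resid.Ap

/-! # Minimal projections in an algebra without finite-dimensional summand -/

namespace Q88.Resid

open scoped InnerProductSpace

variable {H : Type*} [NormedAddCommGroup H] [InnerProductSpace ℂ H] [CompleteSpace H]

/-- minimal projection -/
structure IsMin (M : VonNeumannAlgebra H) (q : H →L[ℂ] H) : Prop where
  mem : q ∈ M
  proj : IsStarProjection q
  ne : q ≠ 0
  min : ∀ x ∈ M, ∃ c : ℂ, q * x * q = c • q

/-- `M` as a subspace -/
def Msub (M : VonNeumannAlgebra H) : Submodule ℂ (H →L[ℂ] H) :=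
  Subalgebra.toSubmodule M.toStarSubalgebra.toSubalgebra

lemma mem_Msub {M : VonNeumannAlgebra H} {x : H →L[ℂ] H} : x ∈ Msub M ↔ x ∈ M := Iff.rfl

/-- the left ideal `M q` -/
def Mq (M : VonNeumannAlgebra H) (q : H →L[ℂ] H) : Submodule ℂ (H →L[ℂ] H) where
  carrier := {y | y ∈ M ∧ y * q = y}
  add_mem' := by
    rintro a b ⟨ha, ha'⟩ ⟨hb, hb'⟩
    exact ⟨add_mem ha hb, by rw [add_mul, ha', hb']⟩
  zero_mem' := ⟨zero_mem _, by simp⟩
  smul_mem' := by
    rintro c x ⟨hx, hx'⟩
    exact ⟨smul_mem' hx c, by rw [smul_mul_assoc, hx']⟩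

lemma finrange_of_ker_le {V W U : Type*} [AddCommGroup V] [Module ℂ V] [AddCommGroup W]
    [Module ℂ W] [AddCommGroup U] [Module ℂ U] [FiniteDimensional ℂ W] (f : V →ₗ[ℂ] W)
    (g : V →ₗ[ℂ] U) (h : LinearMap.ker f ≤ LinearMap.ker g) :
    FiniteDimensional ℂ (LinearMap.range g) := by
  have h1 : FiniteDimensional ℂ (V ⧸ LinearMap.ker f) :=
    (LinearMap.quotKerEquivRange f).symm.finiteDimensional
  rw [← Submodule.range_liftQ (LinearMap.ker f) g h]
  infer_instance

lemma hasFinDimSummand_of_finite_Mq {M : VonNeumannAlgebra H} {q : H →L[ℂ] H} (hq : IsMin M q)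
    (hfin : FiniteDimensional ℂ (Mq M q)) : HasFinDimSummand M := by
  classical
  have hqq : q * q = q := hq.proj.isIdempotentElem
  set S : Set H := {ζ | ∃ y ∈ Mq M q, ∃ ξ : H, ζ = y ξ} with hS
  set U : Submodule ℂ H := (Submodule.span ℂ S).topologicalClosure with hU
  have hsub : S ⊆ U := fun ζ hζ => Submodule.le_topologicalClosure _ (Submodule.subset_span hζ)
  have hz1 : U.starProjection ∈ M := by
    refine starProjection_mem M U fun y hy => closure_span_invariant S y ?_
    rintro _ ⟨x, hx, ξ, rfl⟩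
    refine hsub ⟨x, hx, y ξ, ?_⟩
    have := (VonNeumannAlgebra.mem_commutant_iff.1 hy) x hx.1
    rw [← mul_apply_eq_comp, ← this]
    rfl
  have hz2 : U.starProjection ∈ M.commutant := by
    refine starProjection_mem M.commutant U fun y hy => closure_span_invariant S y ?_
    rw [VonNeumannAlgebra.commutant_commutant] at hy
    rintro _ ⟨x, hx, ξ, rfl⟩
    exact hsub ⟨y * x, ⟨mul_mem hy hx.1, by rw [mul_assoc, hx.2]⟩, ξ, rfl⟩
  have hcent : ∀ x ∈ M, U.starProjection * x = x * U.starProjection := by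
    intro x hx
    exact ((VonNeumannAlgebra.mem_commutant_iff.1 hz2) x hx).symm
  refine ⟨U.starProjection, hz1, isStarProjection_starProjection, ?_, hcent, ?_⟩
  · intro h0
    apply hq.ne
    ext ξ
    have h1 : q ξ ∈ U := hsub ⟨q, ⟨hq.mem, hqq⟩, ξ, rfl⟩
    have h2 := Submodule.starProjection_eq_self_iff.2 h1
    rw [h0] at h2
    simpa using h2.symm
  · -- finite dimension
    let f : Msub M →ₗ[ℂ] (Mq M q →ₗ[ℂ] Mq M q) :=
      LinearMap.mk₂ ℂ (fun x y => ⟨x.1 * y.1, mul_mem x.2 y.2.1, by rw [mul_assoc, y.2.2]⟩)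
        (by intro a b c; apply Subtype.ext; simp [add_mul])
        (by intro a b c; apply Subtype.ext; simp)
        (by intro a b c; apply Subtype.ext; simp [mul_add])
        (by intro a b c; apply Subtype.ext; simp)
    let g : Msub M →ₗ[ℂ] (H →L[ℂ] H) :=
      (LinearMap.mulLeft ℂ U.starProjection).comp (Msub M).subtype
    have hle : LinearMap.ker f ≤ LinearMap.ker g := by
      intro x hx
      rw [LinearMap.mem_ker] at hx ⊢
      change U.starProjection * x.1 = 0
      rw [hcent x.1 x.2]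
      have h1 : ∀ ζ ∈ U, x.1 ζ = 0 := by
        have h2 : U ≤ LinearMap.ker (x.1 : H →ₗ[ℂ] H) := by
          refine Submodule.topologicalClosure_minimal _ ?_ ?_
          · rw [Submodule.span_le]
            rintro _ ⟨y, hy, ξ, rfl⟩
            have h3 : f x ⟨y, hy⟩ = 0 := by rw [hx]; rfl
            have h4 : x.1 * y = 0 := congrArg Subtype.val h3
            change x.1 (y ξ) = 0
            rw [← mul_apply_eq_comp, h4]
            rfl
          · have h5 : IsClosed {ζ : H | x.1 ζ = 0} :=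
              isClosed_eq x.1.continuous continuous_const
            exact h5
        intro ζ hζ
        have h6 := h2 hζ
        rwa [LinearMap.mem_ker] at h6
      ext ζ
      exact h1 _ (Submodule.starProjection_apply_mem U ζ)
    have hfr := finrange_of_ker_le (V := Msub M) (W := Mq M q →ₗ[ℂ] Mq M q)
      (U := H →L[ℂ] H) f g hle
    have hspan : Submodule.span ℂ {y : H →L[ℂ] H | ∃ x ∈ M, y = U.starProjection * x} =
        LinearMap.range g := by
      apply le_antisymm
      · rw [Submodule.span_le]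
        rintro _ ⟨x, hx, rfl⟩
        exact ⟨⟨x, hx⟩, rfl⟩
      · rintro _ ⟨x, rfl⟩
        exact Submodule.subset_span ⟨x.1, x.2, rfl⟩
    rw [hspan]
    exact hfr

lemma exists_unit_vec {q : H →L[ℂ] H} (hq : IsStarProjection q) (hne : q ≠ 0) :
    ∃ ζ : H, q ζ = ζ ∧ ζ ≠ 0 := by
  by_contra hcon
  push Not at hcon
  apply hne
  ext ξ
  have : q (q ξ) = q ξ := by
    rw [← mul_apply_eq_comp, hq.isIdempotentElem]
  simpa using hcon (q ξ) this

/-- one more orthogonal translate of a minimal projection -/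
lemma exists_orth {M : VonNeumannAlgebra H} {q : H →L[ℂ] H} (hq : IsMin M q)
    (hM : ¬ HasFinDimSummand M) (s : Finset (H →L[ℂ] H))
    (hs : ∀ v ∈ s, v ∈ M ∧ star v * v = q) :
    ∃ w ∈ M, star w * w = q ∧ ∀ v ∈ s, star v * w = 0 := by
  classical
  have hqq : q * q = q := hq.proj.isIdempotentElem
  have hqs : star q = q := hq.proj.isSelfAdjoint
  obtain ⟨ζ, hζ, hζ0⟩ := exists_unit_vec hq.proj hq.ne
  have hinf : ¬ FiniteDimensional ℂ (Mq M q) := fun h => hM (hasFinDimSummand_of_finite_Mq hq h)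
  let F : Mq M q →ₗ[ℂ] (s → ℂ) :=
    { toFun := fun y v => ⟪ζ, (star v.1 * y.1) ζ⟫_ℂ
      map_add' := by
        intro a b; funext v
        simp [mul_add]
      map_smul' := by
        intro c a; funext v
        simp }
  have hker : ¬ Function.Injective F := by
    intro hinj
    exact hinf (Module.Finite.of_injective F hinj)
  rw [← LinearMap.ker_eq_bot, Submodule.eq_bot_iff] at hker
  push Not at hker
  obtain ⟨y, hy, hy0⟩ := hker
  have hyM := y.2.1
  have hyq := y.2.2
  have hy1 : y.1 ≠ 0 := fun h => hy0 (Subtype.ext h)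
  have hvq : ∀ v ∈ s, v * q = v := by
    intro v hv
    have h1 : star v * v = q := (hs v hv).2
    have h2 : star (v * (1 - q)) * (v * (1 - q)) = 0 := by
      calc star (v * (1 - q)) * (v * (1 - q)) = (1 - star q) * (star v * v) * (1 - q) := by
            rw [star_mul, star_sub, star_one]; simp only [mul_assoc]
        _ = q - q * q - q * q + q * q * q := by rw [h1, hqs]; noncomm_ring
        _ = 0 := by rw [hqq, hqq]; noncomm_ring
    have h3 : v * (1 - q) = 0 := by
      rwa [CStarRing.star_mul_self_eq_zero_iff] at h2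
    rw [mul_sub, mul_one, sub_eq_zero] at h3
    exact h3.symm
  have horth : ∀ v ∈ s, star v * y.1 = 0 := by
    intro v hv
    obtain ⟨c, hc⟩ := hq.min (star v * y.1) (mul_mem (star_mem (hs v hv).1) hyM)
    have h1 : q * (star v * y.1) * q = star v * y.1 := by
      have h2 : q * star v = star v := by
        have := congrArg star (hvq v hv)
        rwa [star_mul, hqs] at this
      rw [← mul_assoc, h2, mul_assoc, hyq]
    have h4 : ⟪ζ, (star v * y.1) ζ⟫_ℂ = 0 := congrFun hy ⟨v, hv⟩
    rw [← h1, hc] at h4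
    rw [smul_apply, hζ, inner_smul_right, mul_eq_zero] at h4
    rcases h4 with h4 | h4
    · rw [← h1, hc, h4, zero_smul]
    · exact absurd (inner_self_eq_zero.1 h4) hζ0
  obtain ⟨c, hc⟩ := hq.min (star y.1 * y.1) (mul_mem (star_mem hyM) hyM)
  have h1 : q * (star y.1 * y.1) * q = star y.1 * y.1 := by
    have h2 : q * star y.1 = star y.1 := by
      have := congrArg star hyq
      rwa [star_mul, hqs] at this
    rw [← mul_assoc, h2, mul_assoc, hyq]
  rw [h1] at hc
  have hcr : ((‖y.1 ζ‖ ^ 2 / ‖ζ‖ ^ 2 : ℝ) : ℂ) = c := by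
    have h3 : ⟪ζ, (star y.1 * y.1) ζ⟫_ℂ = ((‖y.1 ζ‖ ^ 2 : ℝ) : ℂ) := by
      rw [mul_apply_eq_comp, ContinuousLinearMap.star_eq_adjoint,
        ContinuousLinearMap.adjoint_inner_right, inner_self_eq_norm_sq_to_K]
      norm_cast
    rw [hc, smul_apply, hζ, inner_smul_right, inner_self_eq_norm_sq_to_K] at h3
    have h5 : ((‖ζ‖ : ℂ)) ≠ 0 := by
      norm_cast
      exact norm_ne_zero_iff.2 hζ0
    push_cast
    field_simp
    rw [← mul_comm] at h3
    push_cast at h3
    rw [← h3]
    rfl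
  set r : ℝ := ‖y.1 ζ‖ ^ 2 / ‖ζ‖ ^ 2 with hr
  have hr0 : 0 ≤ r := by positivity
  have hrpos : 0 < r := by
    rcases lt_or_eq_of_le hr0 with h | h
    · exact h
    · exfalso
      rw [← hcr, ← h] at hc
      simp only [Complex.ofReal_zero, zero_smul] at hc
      rw [CStarRing.star_mul_self_eq_zero_iff] at hc
      exact hy1 hc
  refine ⟨(((Real.sqrt r)⁻¹ : ℝ) : ℂ) • y.1, smul_mem' hyM _, ?_, ?_⟩
  · rw [star_smul, smul_mul_smul_comm, hc, smul_smul, ← hcr]
    have : star (((Real.sqrt r)⁻¹ : ℝ) : ℂ) * (((Real.sqrt r)⁻¹ : ℝ) : ℂ) * (r : ℂ) = 1 := by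
      rw [Complex.star_def, Complex.conj_ofReal]
      norm_cast
      have h6 : Real.sqrt r * Real.sqrt r = r := Real.mul_self_sqrt hr0
      have h7 : Real.sqrt r ≠ 0 := (Real.sqrt_pos.2 hrpos).ne'
      field_simp
      nlinarith
    rw [this, one_smul]
  · intro v hv
    rw [mul_smul_comm, horth v hv, smul_zero]

/-- a sequence of orthogonal translates of a minimal projection -/
lemma exists_seq {M : VonNeumannAlgebra H} {q : H →L[ℂ] H} (hq : IsMin M q)
    (hM : ¬ HasFinDimSummand M) :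
    ∃ v : ℕ → (H →L[ℂ] H), (∀ n, v n ∈ M ∧ star (v n) * v n = q ∧ q * v n = 0) ∧
      ∀ m n, m ≠ n → star (v m) * v n = 0 := by
  classical
  have hqq : q * q = q := hq.proj.isIdempotentElem
  have hqs : star q = q := hq.proj.isSelfAdjoint
  obtain ⟨f, hf1, hf2⟩ := exists_seq_of_forall_finset_exists
    (fun v : H →L[ℂ] H => v ∈ M ∧ star v * v = q ∧ q * v = 0)
    (fun v w : H →L[ℂ] H => star v * w = 0) (by
      intro s hs
      obtain ⟨w, hw1, hw2, hw3⟩ := exists_orth hq hM (insert q s) (by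
        intro v hv
        rcases Finset.mem_insert.1 hv with rfl | hv
        · exact ⟨hq.mem, by rw [hqs, hqq]⟩
        · exact ⟨(hs v hv).1, (hs v hv).2.1⟩)
      refine ⟨w, ⟨hw1, hw2, ?_⟩, fun v hv => hw3 v (Finset.mem_insert_of_mem hv)⟩
      have := hw3 q (Finset.mem_insert_self _ _)
      rwa [hqs] at this)
  refine ⟨f, hf1, fun m n hmn => ?_⟩
  rcases lt_or_gt_of_ne hmn with h | h
  · exact hf2 m n h
  · have h1 := congrArg star (hf2 n m h)
    simpa [star_mul] using h1

end Q88.Resid
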