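import Pool.Agent.Q88.Resid.Suff

/-! # Necessity -/

namespace Q88.Resid

open scoped InnerProductSpace
open Filter Topology

variable {H : Type*} [NormedAddCommGroup H] [InnerProductSpace ℂ H] [CompleteSpace H]

lemma phi_mul (z x : H →L[ℂ] H) (hz : IsSelfAdjoint z) (ξ η : H) :
    phi (z * x) (ξ, η) = ⟪z ξ, x η⟫_ℂ := by
  have := hz.isSymmetric ξ (x η)
  simp only [ContinuousLinearMap.coe_coe] at this
  rw [this]
  rfl

lemma not_dense_of_summand {M : VonNeumannAlgebra H} (h : HasFinDimSummand M) :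
    ¬ Dense (unitaries M) := by
  obtain ⟨z, hzM, hzp, hz0, hzc, hfin⟩ := h
  intro hd
  have hzz : z * z = z := hzp.isIdempotentElem
  have hzs : star z = z := hzp.isSelfAdjoint
  set W := Submodule.span ℂ {y : H →L[ℂ] H | ∃ x ∈ M, y = z * x} with hW
  -- the coefficient map
  let F : W →ₗ[ℂ] (H × H → ℂ) :=
    { toFun := fun w => phi w.1
      map_add' := by intro a b; funext p; simp [phi]
      map_smul' := by intro c a; funext p; simp [phi] }
  have hinj : LinearMap.ker F = ⊥ := by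
    rw [LinearMap.ker_eq_bot]
    intro a b hab
    exact Subtype.ext (phi_inj hab)
  have hemb := LinearMap.isClosedEmbedding_of_injective hinj
  have hcl : IsClosed (F '' {w : W | ‖w‖ = 1}) :=
    hemb.isClosedMap _ (isClosed_eq continuous_norm continuous_const)
  let G : Ball M → (H × H → ℂ) := fun x => phi (z * x.1)
  have hG : Continuous G := by
    refine continuous_pi fun p => ?_
    have := continuous_coeff M (z p.1) p.2
    refine this.congr fun x => ?_
    exact (phi_mul z x.1 hzp.isSelfAdjoint p.1 p.2).symm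
  have hclG : IsClosed (G ⁻¹' (F '' {w : W | ‖w‖ = 1})) := hcl.preimage hG
  have hsub : unitaries M ⊆ G ⁻¹' (F '' {w : W | ‖w‖ = 1}) := by
    rintro ⟨u, huM, hun⟩ ⟨hu1, hu2⟩
    change star u * u = 1 at hu1
    change u * star u = 1 at hu2
    refine ⟨⟨z * u, Submodule.subset_span ⟨u, huM, rfl⟩⟩, ?_, rfl⟩
    change ‖z * u‖ = 1
    have h1 : ‖z * u‖ * ‖z * u‖ = 1 := by
      have h2 : ‖(z * u) * star (z * u)‖ = ‖z * u‖ * ‖z * u‖ := CStarRing.norm_self_mul_star
      have h3 : (z * u) * star (z * u) = z := by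
        calc (z * u) * star (z * u) = z * (u * star u) * star z := by
              rw [star_mul]; simp only [mul_assoc]
          _ = z := by rw [hu2, mul_one, hzs, hzz]
      rw [← h2, h3]
      have h4 : ‖star z * z‖ = ‖z‖ * ‖z‖ := CStarRing.norm_star_mul_self
      rw [hzs, hzz] at h4
      have h5 : ‖z‖ ≠ 0 := norm_ne_zero_iff.2 hz0
      have h6 : ‖z‖ * 1 = ‖z‖ * ‖z‖ := by rw [mul_one]; exact h4
      exact (mul_left_cancel₀ h5 h6).symm
    nlinarith [norm_nonneg (z * u)]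
  have hall : ∀ x : Ball M, x ∈ G ⁻¹' (F '' {w : W | ‖w‖ = 1}) := by
    intro x
    exact closure_minimal hsub hclG (hd x)
  obtain ⟨w, hw1, hw2⟩ := hall ⟨0, zero_mem _, by simp⟩
  have h3 : w.1 = z * 0 := phi_inj hw2
  have h4 : ‖w.1‖ = 1 := hw1
  rw [h3, mul_zero, norm_zero] at h4
  exact zero_ne_one h4

/-! ### σ-finiteness -/

lemma countable_ne (S : Set (H →L[ℂ] H)) (hS : ∀ p ∈ S, IsStarProjection p)
    (hp : S.Pairwise fun p q => p * q = 0) (ξ : H) : {p ∈ S | p ξ ≠ 0}.Countable := by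
  classical
  have hsum : Summable fun p : S => ‖p.1 ξ‖ ^ 2 := by
    refine summable_of_sum_le (c := ‖ξ‖ ^ 2) (fun p => by positivity) fun u => ?_
    have hP : IsStarProjection (∑ p ∈ u, p.1) := by
      refine ⟨?_, ?_⟩
      · unfold IsIdempotentElem
        rw [Finset.sum_mul_sum]
        refine Finset.sum_congr rfl fun i hi => ?_
        rw [Finset.sum_eq_single i]
        · exact (hS i.1 i.2).isIdempotentElem
        · intro j _ hj
          exact hp i.2 j.2 (fun h => hj (Subtype.ext h.symm))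
        · intro h; exact absurd hi h
      · unfold IsSelfAdjoint
        rw [star_sum]
        exact Finset.sum_congr rfl fun i _ => (hS i.1 i.2).isSelfAdjoint
    have e1 : ∑ p ∈ u, ‖p.1 ξ‖ ^ 2 = (⟪ξ, (∑ p ∈ u, p.1) ξ⟫_ℂ).re := by
      rw [sum_apply, inner_sum, Complex.re_sum]
      refine Finset.sum_congr rfl fun p _ => ?_
      have h1 := (hS p.1 p.2).isSelfAdjoint.isSymmetric ξ (p.1 ξ)
      simp only [ContinuousLinearMap.coe_coe] at h1
      rw [← mul_apply_eq_comp, (hS p.1 p.2).isIdempotentElem, inner_self_eq_norm_sq_to_K] at h1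
      rw [← h1]
      norm_cast
    rw [e1]
    set P := ∑ p ∈ u, p.1 with hPd
    have hPn : ‖P‖ ≤ 1 := hP.norm_le
    calc (⟪ξ, P ξ⟫_ℂ).re ≤ ‖⟪ξ, P ξ⟫_ℂ‖ := Complex.re_le_norm _
      _ ≤ ‖ξ‖ * ‖P ξ‖ := norm_inner_le_norm _ _
      _ ≤ ‖ξ‖ * (1 * ‖ξ‖) := by
          gcongr
          exact (P.le_opNorm ξ).trans (by gcongr)
      _ = ‖ξ‖ ^ 2 := by ring
  have hc := hsum.countable_support
  have : {p ∈ S | p ξ ≠ 0} = Subtype.val '' (Function.support fun p : S => ‖p.1 ξ‖ ^ 2) := by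
    ext p
    constructor
    · rintro ⟨h1, h2⟩
      exact ⟨⟨p, h1⟩, by simpa [Function.mem_support] using h2, rfl⟩
    · rintro ⟨q, hq, rfl⟩
      refine ⟨q.2, ?_⟩
      simpa [Function.mem_support] using hq
  rw [this]
  exact hc.image _

/-- closed basic neighbourhoods -/
def NB (M : VonNeumannAlgebra H) (F : Finset (H × H)) (x : Ball M) (ε : ℝ) : Set (Ball M) :=
  {y | ∀ p ∈ F, ‖Psi M y p - Psi M x p‖ ≤ ε}

lemma isClosed_NB (M : VonNeumannAlgebra H) (F : Finset (H × H)) (x : Ball M) (ε : ℝ) :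
    IsClosed (NB M F x ε) := by
  have : NB M F x ε = ⋂ p ∈ F, {y | ‖Psi M y p - Psi M x p‖ ≤ ε} := by
    ext y; simp [NB]
  rw [this]
  refine isClosed_iInter fun p => isClosed_iInter fun _ => ?_
  have h1 : Continuous fun y : Ball M => Psi M y p := continuous_coeff M p.1 p.2
  exact isClosed_le (h1.sub continuous_const).norm continuous_const

lemma interior_NB (M : VonNeumannAlgebra H) (F : Finset (H × H)) (x : Ball M) {ε : ℝ}
    (hε : 0 < ε) : ∃ U ⊆ NB M F x ε, IsOpen U ∧ x ∈ U := by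
  refine ⟨⋂ p ∈ F, {y | ‖Psi M y p - Psi M x p‖ < ε}, ?_, ?_, ?_⟩
  · intro y hy p hp
    simp only [Set.mem_iInter, Set.mem_ofPred_eq] at hy
    exact (hy p hp).le
  · refine isOpen_biInter_finset fun p _ => ?_
    have h1 : Continuous fun y : Ball M => Psi M y p := continuous_coeff M p.1 p.2
    exact isOpen_lt (h1.sub continuous_const).norm continuous_const
  · simp only [Set.mem_iInter, Set.mem_ofPred_eq, sub_self, norm_zero]
    exact fun _ _ => hε

lemma exists_NB {M : VonNeumannAlgebra H} {U : Set (Ball M)} (hU : IsOpen U) {x : Ball M}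
    (hx : x ∈ U) : ∃ (F : Finset (H × H)) (ε : ℝ), 0 < ε ∧ NB M F x ε ⊆ U := by
  classical
  obtain ⟨V, hV, hVU⟩ := (isInducing_Psi M).isOpen_iff.1 hU
  have hxV : Psi M x ∈ V := by rw [← hVU] at hx; exact hx
  obtain ⟨I, u, hu, hIu⟩ := isOpen_pi_iff.1 hV _ hxV
  have h1 : ∀ p ∈ I, ∃ ε > 0, Metric.closedBall (Psi M x p) ε ⊆ u p := by
    intro p hp
    exact Metric.nhds_basis_closedBall.mem_iff.1 ((hu p hp).1.mem_nhds (hu p hp).2)
  choose! e he1 he2 using h1
  by_cases hI : I.Nonempty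
  · refine ⟨I, I.inf' hI e, ?_, ?_⟩
    · rw [Finset.lt_inf'_iff]
      exact fun p hp => he1 p hp
    · intro y hy
      rw [← hVU]
      refine hIu fun p hp => he2 p hp ?_
      rw [mem_closedBall_iff_norm]
      exact (hy p hp).trans (Finset.inf'_le _ hp)
  · refine ⟨∅, 1, one_pos, ?_⟩
    intro y _
    rw [← hVU]
    refine hIu fun p hp => ?_
    exact absurd ⟨p, hp⟩ hI

lemma sigmaFinite_of {M : VonNeumannAlgebra H} (hR : unitaries M ∈ residual (Ball M)) :
    SigmaFinite M := by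
  classical
  intro S hS hp
  by_contra hcon
  obtain ⟨T, hT1, hT2, hT3, hT4⟩ := mem_residual_iff.1 hR
  have hT0 : (insert Set.univ T).Nonempty := ⟨_, Set.mem_insert _ _⟩
  obtain ⟨G, hG⟩ := (hT3.insert Set.univ).exists_eq_range hT0
  have hGo : ∀ n, IsOpen (G n) := by
    intro n
    have : G n ∈ insert Set.univ T := by rw [hG]; exact Set.mem_range_self n
    rcases this with h | h
    · rw [h]; exact isOpen_univ
    · exact hT1 _ h
  have hGd : ∀ n, Dense (G n) := by
    intro n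
    have : G n ∈ insert Set.univ T := by rw [hG]; exact Set.mem_range_self n
    rcases this with h | h
    · rw [h]; exact dense_univ
    · exact hT2 _ h
  have hGs : ⋂ n, G n ⊆ unitaries M := by
    intro x hx
    refine hT4 ?_
    intro t ht
    have : t ∈ Set.range G := by rw [← hG]; exact Set.mem_insert_of_mem _ ht
    obtain ⟨n, rfl⟩ := this
    exact Set.mem_iInter.1 hx n
  -- the nested sequence
  let Dt : Type _ := {d : Finset (H × H) × Ball M × ℝ // 0 < d.2.2}
  let nb : Dt → Set (Ball M) := fun d => NB M d.1.1 d.1.2.1 d.1.2.2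
  have hstep : ∀ (n : ℕ) (d : Dt), ∃ d' : Dt, nb d' ⊆ nb d ∩ G n := by
    intro n d
    obtain ⟨U, hU1, hU2, hU3⟩ := interior_NB M d.1.1 d.1.2.1 d.2
    obtain ⟨x', hx'⟩ := (hGd n).inter_open_nonempty U hU2 ⟨_, hU3⟩
    obtain ⟨F', ε', hε', hsub⟩ := exists_NB (hU2.inter (hGo n)) hx'
    refine ⟨⟨(F', x', ε'), hε'⟩, ?_⟩
    intro y hy
    have := hsub hy
    exact ⟨hU1 this.1, this.2⟩
  choose g hg using hstep
  let d0 : Dt := ⟨(∅, ⟨0, zero_mem _, by simp⟩, 1), one_pos⟩
  let d : ℕ → Dt := fun n => Nat.rec d0 (fun k e => g k e) n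
  have hd : ∀ n, nb (d (n + 1)) ⊆ nb (d n) ∩ G n := fun n => hg n (d n)
  have hne : (⋂ n, nb (d n)).Nonempty := by
    refine IsCompact.nonempty_iInter_of_sequence_nonempty_isCompact_isClosed (fun n => nb (d n))
      (fun n => (hd n).trans Set.inter_subset_left) ?_ ?_ ?_
    · intro n
      refine ⟨(d n).1.2.1, ?_⟩
      intro p _
      rw [sub_self, norm_zero]
      exact (d n).2.le
    · exact (isClosed_NB M _ _ _).isCompact
    · intro n
      exact isClosed_NB M _ _ _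
  obtain ⟨x, hx⟩ := hne
  -- choice of the projection
  let Z : Set H := ⋃ n, ⋃ p ∈ (d n).1.1, {p.1, p.2}
  have hZ : Z.Countable := by
    refine Set.countable_iUnion fun n => Set.Countable.biUnion (Finset.countable_toSet _) ?_
    intro p _
    exact (Set.toFinite _).countable
  have hbad : (⋃ ξ ∈ Z, {p ∈ S | p ξ ≠ 0}).Countable :=
    hZ.biUnion fun ξ _ => countable_ne S (fun p hp => (hS p hp).2.1) hp ξ
  obtain ⟨q, hqS, hq⟩ : ∃ q ∈ S, q ∉ ⋃ ξ ∈ Z, {p ∈ S | p ξ ≠ 0} := by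
    by_contra hno
    push Not at hno
    exact hcon (hbad.mono hno)
  have hqZ : ∀ ξ ∈ Z, q ξ = 0 := by
    intro ξ hξ
    by_contra h0
    exact hq (Set.mem_biUnion hξ ⟨hqS, h0⟩)
  obtain ⟨hqM, hqp, hq0⟩ := hS q hqS
  have hqq : q * q = q := hqp.isIdempotentElem
  have hq1 : ‖(1 : H →L[ℂ] H) - q‖ ≤ 1 := hqp.one_sub.norm_le
  let y : Ball M := ⟨(1 - q) * x.1 * (1 - q),
    mul_mem (mul_mem (sub_mem (one_mem _) hqM) x.2.1) (sub_mem (one_mem _) hqM), by
      have hx1 : ‖x.1‖ ≤ 1 := x.2.2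
      calc ‖(1 - q) * x.1 * (1 - q)‖ ≤ ‖(1 - q) * x.1‖ * ‖1 - q‖ := norm_mul_le _ _
        _ ≤ ‖1 - q‖ * ‖x.1‖ * ‖1 - q‖ := by gcongr; exact norm_mul_le _ _
        _ ≤ 1 * 1 * 1 := by gcongr
        _ = 1 := by norm_num⟩
  have hyx : ∀ n, ∀ p ∈ (d n).1.1, Psi M y p = Psi M x p := by
    intro n p hpn
    have h1 : p.1 ∈ Z := Set.mem_iUnion.2 ⟨n, Set.mem_biUnion hpn (by simp)⟩
    have h2 : p.2 ∈ Z := Set.mem_iUnion.2 ⟨n, Set.mem_biUnion hpn (by simp)⟩
    change ⟪p.1, ((1 - q) * x.1 * (1 - q)) p.2⟫_ℂ = ⟪p.1, x.1 p.2⟫_ℂ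
    have h3 : (1 - q) p.2 = p.2 := by
      rw [sub_apply, one_apply_eq_self, hqZ _ h2, sub_zero]
    have h4 : (1 - q) p.1 = p.1 := by
      rw [sub_apply, one_apply_eq_self, hqZ _ h1, sub_zero]
    have h5 := hqp.one_sub.isSelfAdjoint.isSymmetric p.1 (x.1 p.2)
    simp only [ContinuousLinearMap.coe_coe] at h5
    rw [mul_apply_eq_comp, mul_apply_eq_comp, h3, ← h5, h4]
  have hy : y ∈ ⋂ n, G n := by
    rw [Set.mem_iInter]
    intro n
    have hyn : y ∈ nb (d (n + 1)) := by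
      intro p hpn
      rw [hyx (n + 1) p hpn]
      exact Set.mem_iInter.1 hx (n + 1) p hpn
    exact (hd n hyn).2
  have hyu := hGs hy
  have h1 : y.1 * star y.1 = 1 := hyu.2
  apply hq0
  have h2 : q * y.1 = 0 := by
    change q * ((1 - q) * x.1 * (1 - q)) = 0
    rw [mul_assoc (1 - q), ← mul_assoc, mul_sub, mul_one, hqq, sub_self, zero_mul]
  calc q = q * (y.1 * star y.1) := by rw [h1, mul_one]
    _ = 0 := by rw [← mul_assoc, h2, zero_mul]

/-- necessity -/
theorem of_propR {M : VonNeumannAlgebra H} (h : PropR M) :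
    SigmaFinite M ∧ ¬ HasFinDimSummand M := by
  have hR : unitaries M ∈ residual (Ball M) := by
    unfold PropR IsMeagre at h
    rwa [compl_compl] at h
  exact ⟨sigmaFinite_of hR, fun hf => not_dense_of_summand hf (dense_of_mem_residual hR)⟩

end Q88.Resid
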