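import Pool.Agent.Q88.Resid.Top

/-! # Sufficiency -/

namespace Q88.Resid

open scoped InnerProductSpace
open Filter Topology

variable {H : Type*} [NormedAddCommGroup H] [InnerProductSpace ℂ H] [CompleteSpace H]

/-- `D` is an orthogonal family of cyclic vectors for the commutant. -/
def OrthCyc (M : VonNeumannAlgebra H) (D : Set H) : Prop :=
  (∀ ξ ∈ D, ξ ≠ 0) ∧ D.Pairwise fun ξ η => ∀ z ∈ M.commutant, ⟪ξ, z η⟫_ℂ = 0

/-- the orbit of `ξ` under the commutant -/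
def orb (M : VonNeumannAlgebra H) (ξ : H) : Set H := {ζ | ∃ z ∈ M.commutant, ζ = z ξ}

/-- the closed span of the orbit. -/
noncomputable def cyc (M : VonNeumannAlgebra H) (ξ : H) : Submodule ℂ H :=
  (Submodule.span ℂ (orb M ξ)).topologicalClosure

noncomputable instance (M : VonNeumannAlgebra H) (ξ : H) : CompleteSpace (cyc M ξ) := by
  unfold cyc; infer_instance

lemma self_mem_cyc (M : VonNeumannAlgebra H) (ξ : H) : ξ ∈ cyc M ξ :=
  Submodule.le_topologicalClosure _ (Submodule.subset_span ⟨1, one_mem _, rfl⟩)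

lemma cyc_proj_mem (M : VonNeumannAlgebra H) (ξ : H) : (cyc M ξ).starProjection ∈ M := by
  refine starProjection_mem M _ fun y hy => closure_span_invariant _ y ?_
  rintro _ ⟨z, hz, rfl⟩
  exact Submodule.le_topologicalClosure _ (Submodule.subset_span ⟨y * z, mul_mem hy hz, rfl⟩)

/-- orthogonality passes to closed spans -/
lemma inner_closure_zero (S : Set H) (η : H) (h : ∀ ζ ∈ S, ⟪η, ζ⟫_ℂ = 0) :
    ∀ ζ ∈ (Submodule.span ℂ S).topologicalClosure, ⟪η, ζ⟫_ℂ = 0 := by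
  have h1 : (Submodule.span ℂ S).topologicalClosure ≤
      LinearMap.ker ((innerSL ℂ η : H →L[ℂ] ℂ) : H →ₗ[ℂ] ℂ) := by
    refine Submodule.topologicalClosure_minimal _ ?_ ?_
    · rw [Submodule.span_le]
      intro ζ hζ
      exact h ζ hζ
    · have : IsClosed {ζ : H | (innerSL ℂ η) ζ = 0} :=
        isClosed_eq (innerSL ℂ η).continuous continuous_const
      exact this
  intro ζ hζ
  exact h1 hζ

lemma cyc_orth {M : VonNeumannAlgebra H} {ξ η : H} (h : ∀ z ∈ M.commutant, ⟪ξ, z η⟫_ℂ = 0) :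
    ∀ a ∈ cyc M ξ, ∀ b ∈ cyc M η, ⟪a, b⟫_ℂ = 0 := by
  intro a ha b hb
  refine inner_closure_zero _ a ?_ b hb
  rintro _ ⟨z, hz, rfl⟩
  have : ⟪z η, a⟫_ℂ = 0 := by
    refine inner_closure_zero _ (z η) ?_ a ha
    rintro _ ⟨w, hw, rfl⟩
    have h1 := h (star w * z) (mul_mem (star_mem hw) hz)
    rw [mul_apply_eq_comp, ContinuousLinearMap.star_eq_adjoint,
      ContinuousLinearMap.adjoint_inner_right] at h1
    rw [← inner_conj_symm, h1, map_zero]
  rw [← inner_conj_symm, this, map_zero]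

lemma exists_sep (M : VonNeumannAlgebra H) (hM : SigmaFinite M) :
    ∃ D : Set H, D.Countable ∧ ∀ η : H, (∀ ξ ∈ D, ∀ z ∈ M.commutant, ⟪η, z ξ⟫_ℂ = 0) → η = 0 := by
  obtain ⟨D, hD⟩ : ∃ D, Maximal (fun D => OrthCyc M D) D := by
    have := zorn_subset {D : Set H | OrthCyc M D} (by
      intro c hc hch
      refine ⟨⋃₀ c, ⟨?_, ?_⟩, fun s hs => Set.subset_sUnion_of_mem hs⟩
      · rintro ξ ⟨s, hs, hξ⟩
        exact (hc hs).1 ξ hξ
      · rw [Set.pairwise_sUnion hch.directedOn]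
        intro s hs
        exact (hc hs).2)
    exact this
  obtain ⟨⟨hD0, hDp⟩, hmax⟩ := hD
  refine ⟨D, ?_, ?_⟩
  · -- countability
    have hproj : ∀ ξ ∈ D, ∀ η ∈ D, ξ ≠ η →
        (cyc M ξ).starProjection * (cyc M η).starProjection = 0 := by
      intro ξ hξ η hη hne
      ext ζ
      rw [mul_apply_eq_comp]
      have h1 : (cyc M η).starProjection ζ ∈ cyc M η := Submodule.starProjection_apply_mem _ _
      have h2 : (cyc M η).starProjection ζ ∈ (cyc M ξ)ᗮ := by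
        rw [Submodule.mem_orthogonal]
        intro u hu
        exact cyc_orth (hDp hξ hη hne) u hu _ h1
      rw [((cyc M ξ).starProjection_apply_eq_zero_iff).2 h2]
      rfl
    have hne0 : ∀ ξ ∈ D, (cyc M ξ).starProjection ≠ 0 := by
      intro ξ hξ h0
      have h2 := Submodule.starProjection_eq_self_iff.2 (self_mem_cyc M ξ)
      rw [h0] at h2
      exact hD0 ξ hξ (by simpa using h2.symm)
    have hinj : Set.InjOn (fun ξ => (cyc M ξ).starProjection) D := by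
      intro ξ hξ η hη h
      by_contra hne
      have h1 := hproj ξ hξ η hη hne
      have h2 : (cyc M ξ).starProjection = (cyc M η).starProjection := h
      rw [← h2] at h1
      have h3 : (cyc M ξ).starProjection * (cyc M ξ).starProjection = (cyc M ξ).starProjection :=
        (isStarProjection_starProjection (U := cyc M ξ)).isIdempotentElem
      rw [h3] at h1
      exact hne0 ξ hξ h1
    have hcount : ((fun ξ => (cyc M ξ).starProjection) '' D).Countable := by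
      refine hM _ ?_ ?_
      · rintro _ ⟨ξ, hξ, rfl⟩
        exact ⟨cyc_proj_mem M ξ, isStarProjection_starProjection, hne0 ξ hξ⟩
      · rintro _ ⟨ξ, hξ, rfl⟩ _ ⟨η, hη, rfl⟩ hne
        exact hproj ξ hξ η hη (fun h => hne (by rw [h]))
    exact Set.countable_of_injective_of_countable_image hinj hcount
  · intro η hη
    by_contra hne
    have h1 : OrthCyc M (insert η D) := by
      refine ⟨?_, ?_⟩
      · rintro ξ (rfl | hξ)
        · exact hne
        · exact hD0 ξ hξ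
      · rw [Set.pairwise_insert]
        refine ⟨hDp, fun ξ hξ _ => ⟨fun z hz => hη ξ hξ z hz, fun z hz => ?_⟩⟩
        have h2 := hη ξ hξ (star z) (star_mem hz)
        rw [ContinuousLinearMap.star_eq_adjoint, ContinuousLinearMap.adjoint_inner_right] at h2
        rw [← inner_conj_symm, h2, map_zero]
    have h2 : η ∈ D := hmax h1 (Set.subset_insert η D) (Set.mem_insert η D)
    have h3 := hη η h2 1 (one_mem _)
    rw [one_apply_eq_self] at h3
    exact hne (inner_self_eq_zero.1 h3)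

lemma norm_inner_normalized (v : H) (h0 : 0 < ‖v‖) :
    ‖((‖v‖⁻¹ : ℝ) : ℂ) • v‖ ≤ 1 ∧ ‖⟪((‖v‖⁻¹ : ℝ) : ℂ) • v, v⟫_ℂ‖ = ‖v‖ := by
  refine ⟨?_, ?_⟩
  · rw [norm_smul, Complex.norm_real, norm_inv, norm_norm, inv_mul_cancel₀ h0.ne']
  · rw [inner_smul_left, inner_self_eq_norm_sq_to_K, norm_mul, Complex.conj_ofReal,
      Complex.norm_real, norm_inv, norm_norm, norm_pow, RCLike.norm_ofReal, abs_norm]
    rw [sq, ← mul_assoc, inv_mul_cancel₀ h0.ne', one_mul]

lemma isOpen_norm (M : VonNeumannAlgebra H) (ξ : H) (r : ℝ) (hr : 0 ≤ r) :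
    IsOpen {x : Ball M | r < ‖x.1 ξ‖} := by
  have : {x : Ball M | r < ‖x.1 ξ‖} =
      ⋃ (η : H) (_ : ‖η‖ ≤ 1), {x : Ball M | r < ‖⟪η, x.1 ξ⟫_ℂ‖} := by
    ext x
    simp only [Set.mem_ofPred_eq, Set.mem_iUnion, exists_prop]
    constructor
    · intro h
      have h0 : 0 < ‖x.1 ξ‖ := lt_of_le_of_lt hr h
      obtain ⟨k1, k2⟩ := norm_inner_normalized (x.1 ξ) h0
      exact ⟨_, k1, by rw [k2]; exact h⟩
    · rintro ⟨η, hη, h⟩
      calc r < ‖⟪η, x.1 ξ⟫_ℂ‖ := h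
        _ ≤ ‖η‖ * ‖x.1 ξ‖ := norm_inner_le_norm _ _
        _ ≤ 1 * ‖x.1 ξ‖ := by gcongr
        _ = _ := one_mul _
  rw [this]
  refine isOpen_iUnion fun η => isOpen_iUnion fun _ => ?_
  exact isOpen_lt continuous_const (continuous_coeff M η ξ).norm

lemma isOpen_norm_star (M : VonNeumannAlgebra H) (ξ : H) (r : ℝ) (hr : 0 ≤ r) :
    IsOpen {x : Ball M | r < ‖(star x.1) ξ‖} := by
  have : {x : Ball M | r < ‖(star x.1) ξ‖} =
      ⋃ (η : H) (_ : ‖η‖ ≤ 1), {x : Ball M | r < ‖⟪ξ, x.1 η⟫_ℂ‖} := by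
    ext x
    simp only [Set.mem_ofPred_eq, Set.mem_iUnion, exists_prop]
    have hs : ∀ η, ‖⟪ξ, x.1 η⟫_ℂ‖ = ‖⟪η, (star x.1) ξ⟫_ℂ‖ := by
      intro η
      rw [ContinuousLinearMap.star_eq_adjoint, ContinuousLinearMap.adjoint_inner_right,
        ← inner_conj_symm, RCLike.norm_conj]
    simp only [hs]
    constructor
    · intro h
      have h0 : 0 < ‖(star x.1) ξ‖ := lt_of_le_of_lt hr h
      obtain ⟨k1, k2⟩ := norm_inner_normalized ((star x.1) ξ) h0
      exact ⟨_, k1, by rw [k2]; exact h⟩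
    · rintro ⟨η, hη, h⟩
      calc r < ‖⟪η, (star x.1) ξ⟫_ℂ‖ := h
        _ ≤ ‖η‖ * ‖(star x.1) ξ‖ := norm_inner_le_norm _ _
        _ ≤ 1 * ‖(star x.1) ξ‖ := by gcongr
        _ = _ := one_mul _
  rw [this]
  refine isOpen_iUnion fun η => isOpen_iUnion fun _ => ?_
  exact isOpen_lt continuous_const (continuous_coeff M ξ η).norm

/-- contraction preserving the norms of a separating set -/
lemma star_mul_self_eq_one {M : VonNeumannAlgebra H} {D : Set H}
    (hD : ∀ η : H, (∀ ξ ∈ D, ∀ z ∈ M.commutant, ⟪η, z ξ⟫_ℂ = 0) → η = 0)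
    {x : H →L[ℂ] H} (hx : x ∈ M) (hxn : ‖x‖ ≤ 1) (h : ∀ ξ ∈ D, ‖ξ‖ ≤ ‖x ξ‖) :
    star x * x = 1 := by
  have h1 : ∀ ξ ∈ D, (star x) (x ξ) = ξ := by
    intro ξ hξ
    have hle : ‖x ξ‖ ≤ ‖ξ‖ := by
      calc ‖x ξ‖ ≤ ‖x‖ * ‖ξ‖ := x.le_opNorm _
        _ ≤ 1 * ‖ξ‖ := by gcongr
        _ = _ := one_mul _
    have heq : ‖x ξ‖ = ‖ξ‖ := le_antisymm hle (h ξ hξ)
    have h2 : ‖(star x) (x ξ)‖ ≤ ‖ξ‖ := by
      calc ‖(star x) (x ξ)‖ ≤ ‖star x‖ * ‖x ξ‖ := (star x).le_opNorm _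
        _ ≤ 1 * ‖x ξ‖ := by gcongr; rwa [norm_star]
        _ = ‖ξ‖ := by rw [one_mul, heq]
    have h3 : ‖(star x) (x ξ) - ξ‖ ^ 2 ≤ 0 := by
      rw [@norm_sub_sq ℂ]
      have h4 : RCLike.re ⟪(star x) (x ξ), ξ⟫_ℂ = ‖ξ‖ ^ 2 := by
        rw [ContinuousLinearMap.star_eq_adjoint, ContinuousLinearMap.adjoint_inner_left,
          inner_self_eq_norm_sq_to_K, heq]
        norm_cast
      rw [h4]
      nlinarith [norm_nonneg ((star x) (x ξ)), norm_nonneg ξ]
    have h5 : ‖(star x) (x ξ) - ξ‖ = 0 := by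
      nlinarith [norm_nonneg ((star x) (x ξ) - ξ)]
    exact sub_eq_zero.1 (norm_eq_zero.1 h5)
  have hc : star x * x ∈ M := mul_mem (star_mem hx) hx
  ext η
  rw [one_apply_eq_self, ← sub_eq_zero]
  refine hD _ fun ξ hξ z hz => ?_
  have h2 := (VonNeumannAlgebra.mem_commutant_iff.1 hz) _ hc
  have h3 : (star x * x) (z ξ) = z ξ := by
    rw [← mul_apply_eq_comp, h2, mul_apply_eq_comp, mul_apply_eq_comp, h1 ξ hξ]
  have h4 : IsSelfAdjoint (star x * x) := IsSelfAdjoint.star_mul_self x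
  have h5 := h4.isSymmetric η (z ξ)
  simp only [ContinuousLinearMap.coe_coe] at h5
  rw [inner_sub_left, h5, h3, sub_self]

/-- sufficiency -/
theorem propR_of {M : VonNeumannAlgebra H} (h1 : SigmaFinite M) (h2 : ¬ HasFinDimSummand M) :
    PropR M := by
  obtain ⟨D, hDc, hD⟩ := exists_sep M h1
  unfold PropR IsMeagre
  rw [compl_compl]
  have hd := dense_unitaries h2
  have hG : IsGδ (unitaries M) := by
    have heq : unitaries M = (⋂ ξ ∈ D, ⋂ m : ℕ,
        {x : Ball M | ξ = 0 ∨ ‖ξ‖ - ‖ξ‖ / ((m : ℝ) + 1) < ‖x.1 ξ‖}) ∩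
        (⋂ ξ ∈ D, ⋂ m : ℕ, {x : Ball M | ξ = 0 ∨ ‖ξ‖ - ‖ξ‖ / ((m : ℝ) + 1) < ‖(star x.1) ξ‖}) := by
      ext x
      simp only [Set.mem_inter_iff, Set.mem_iInter, Set.mem_ofPred_eq]
      constructor
      · rintro ⟨hu1, hu2⟩
        have k : ∀ (y : H →L[ℂ] H), star y * y = 1 → ∀ (ξ : H) (m : ℕ),
            (ξ = 0 ∨ ‖ξ‖ - ‖ξ‖ / ((m : ℝ) + 1) < ‖y ξ‖) := by
          intro y hy ξ m
          by_cases h0 : ξ = 0
          · exact Or.inl h0
          right
          have h3 : ‖y ξ‖ ^ 2 = ‖ξ‖ ^ 2 := by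
            have h4 : ⟪y ξ, y ξ⟫_ℂ = ⟪ξ, ξ⟫_ℂ := by
              rw [← ContinuousLinearMap.adjoint_inner_right, ← ContinuousLinearMap.star_eq_adjoint,
                ← mul_apply_eq_comp, hy, one_apply_eq_self]
            rw [inner_self_eq_norm_sq_to_K, inner_self_eq_norm_sq_to_K] at h4
            exact_mod_cast h4
          have h5 : ‖y ξ‖ = ‖ξ‖ := by
            have := congrArg Real.sqrt h3
            rwa [Real.sqrt_sq (norm_nonneg _), Real.sqrt_sq (norm_nonneg _)] at this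
          rw [h5]
          have : 0 < ‖ξ‖ / ((m : ℝ) + 1) := by
            have := norm_pos_iff.2 h0
            positivity
          linarith
        refine ⟨fun ξ _ m => k x.1 hu1 ξ m, fun ξ _ m => k (star x.1) (by rw [star_star]; exact hu2) ξ m⟩
      · rintro ⟨k1, k2⟩
        have lim : ∀ (ξ : H) (a : ℝ), 0 ≤ a →
            (∀ m : ℕ, ξ = 0 ∨ ‖ξ‖ - ‖ξ‖ / ((m : ℝ) + 1) < a) → ‖ξ‖ ≤ a := by
          intro ξ a ha h
          by_cases h0 : ξ = 0
          · rw [h0, norm_zero]; exact ha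
          have t1 : Tendsto (fun m : ℕ => ‖ξ‖ - ‖ξ‖ * (1 / ((m : ℝ) + 1))) atTop
              (𝓝 (‖ξ‖ - ‖ξ‖ * 0)) :=
            tendsto_const_nhds.sub (tendsto_one_div_add_atTop_nhds_zero_nat.const_mul _)
          rw [mul_zero, sub_zero] at t1
          refine le_of_tendsto' t1 fun m => ?_
          rcases h m with h | h
          · exact absurd h h0
          · rw [mul_one_div]; exact h.le
        have hx := x.2
        refine ⟨?_, ?_⟩
        · exact star_mul_self_eq_one hD hx.1 hx.2 fun ξ hξ => lim ξ _ (norm_nonneg _) (k1 ξ hξ)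
        · have := star_mul_self_eq_one hD (star_mem hx.1) (by rw [norm_star]; exact hx.2)
            fun ξ hξ => lim ξ _ (norm_nonneg _) (k2 ξ hξ)
          rwa [star_star] at this
    have hor : ∀ (ξ : H) (m : ℕ) (f : Ball M → ℝ), IsOpen {x : Ball M |
        ‖ξ‖ - ‖ξ‖ / ((m : ℝ) + 1) < f x} →
        IsOpen {x : Ball M | ξ = 0 ∨ ‖ξ‖ - ‖ξ‖ / ((m : ℝ) + 1) < f x} := by
      intro ξ m f hf
      by_cases h0 : ξ = 0
      · simp [h0]
      · simpa [h0] using hf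
    have hnn : ∀ (ξ : H) (m : ℕ), 0 ≤ ‖ξ‖ - ‖ξ‖ / ((m : ℝ) + 1) := by
      intro ξ m
      have : ‖ξ‖ / ((m : ℝ) + 1) ≤ ‖ξ‖ := by
        refine div_le_self (norm_nonneg _) ?_
        linarith [(Nat.cast_nonneg m : (0 : ℝ) ≤ m)]
      linarith
    rw [heq]
    refine IsGδ.inter ?_ ?_
    · refine IsGδ.biInter hDc fun ξ _ => IsGδ.iInter fun m => IsOpen.isGδ ?_
      exact hor ξ m (fun x => ‖x.1 ξ‖) (isOpen_norm M ξ _ (hnn ξ m))
    · refine IsGδ.biInter hDc fun ξ _ => IsGδ.iInter fun m => IsOpen.isGδ ?_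
      exact hor ξ m (fun x => ‖(star x.1) ξ‖) (isOpen_norm_star M ξ _ (hnn ξ m))
  exact residual_of_dense_Gδ hG hd

end Q88.Resid
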