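import Pool.Agent.Q88.Resid.Density

/-! # The topology of the unit ball -/

namespace Q88.Resid

open scoped InnerProductSpace
open Filter Topology

variable {H : Type*} [NormedAddCommGroup H] [InnerProductSpace ℂ H] [CompleteSpace H]

/-- the sequence `ξ, 0, 0, ...` -/
def single (ξ : H) : SqSummable H :=
  ⟨fun n => if n = 0 then ξ else 0, by
    refine summable_of_ne_finset_zero (s := {0}) fun n hn => ?_
    have : n ≠ 0 := by simpa using hn
    simp [this]⟩

lemma normalFunctional_single (ξ η : H) (x : H →L[ℂ] H) :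
    normalFunctional (single ξ) (single η) x = ⟪ξ, x η⟫_ℂ := by
  unfold normalFunctional
  rw [tsum_eq_single 0]
  · simp [single]
  · intro n hn
    simp [single, hn]

/-- matrix coefficients on the ball -/
noncomputable def Psi (M : VonNeumannAlgebra H) (x : Ball M) : H × H → ℂ := phi x.1

lemma cont_normal {X : Type*} [TopologicalSpace X] (g : X → H →L[ℂ] H) (hg : ∀ x, ‖g x‖ ≤ 1)
    (h : ∀ ξ η : H, Continuous fun x => ⟪ξ, g x η⟫_ℂ) (q1 q2 : SqSummable H) :
    Continuous fun x => normalFunctional q1 q2 (g x) := by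
  unfold normalFunctional
  refine continuous_tsum (u := fun n => ‖q1.1 n‖ ^ 2 + ‖q2.1 n‖ ^ 2) (fun n => h _ _)
    (q1.2.add q2.2) ?_
  intro n x
  have hx : ‖g x‖ ≤ 1 := hg x
  calc ‖⟪q1.1 n, g x (q2.1 n)⟫_ℂ‖ ≤ ‖q1.1 n‖ * ‖g x (q2.1 n)‖ := norm_inner_le_norm _ _
    _ ≤ ‖q1.1 n‖ * (1 * ‖q2.1 n‖) := by
        gcongr
        exact ((g x).le_opNorm _).trans (by gcongr)
    _ ≤ ‖q1.1 n‖ ^ 2 + ‖q2.1 n‖ ^ 2 := by
        nlinarith [sq_nonneg (‖q1.1 n‖ - ‖q2.1 n‖), sq_nonneg (‖q1.1 n‖ + ‖q2.1 n‖)]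

lemma isInducing_Psi (M : VonNeumannAlgebra H) : IsInducing (Psi M) := by
  refine ⟨le_antisymm ?_ ?_⟩
  · rw [← continuous_iff_le_induced]
    refine continuous_pi fun p => ?_
    have h1 : Continuous fun x : Ball M =>
        (fun q : SqSummable H × SqSummable H => normalFunctional q.1 q.2 x.1) :=
      continuous_induced_dom
    have h2 := (continuous_apply (single p.1, single p.2)).comp h1
    refine h2.congr fun x => ?_
    exact normalFunctional_single p.1 p.2 x.1
  · let τ : TopologicalSpace (Ball M) := TopologicalSpace.induced (Psi M) inferInstance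
    change τ ≤ TopologicalSpace.induced _ _
    rw [← continuous_iff_le_induced]
    refine continuous_pi fun q => ?_
    have h0 : ∀ ξ η : H, @Continuous _ _ τ _ fun x : Ball M => ⟪ξ, x.1 η⟫_ℂ := by
      intro ξ η
      have h1 : @Continuous _ _ τ _ (Psi M) := continuous_induced_dom
      exact (continuous_apply (ξ, η)).comp h1
    exact @cont_normal H _ _ _ (Ball M) τ (fun x : Ball M => x.1) (fun x => x.2.2) h0 q.1 q.2

lemma Psi_injective (M : VonNeumannAlgebra H) : Function.Injective (Psi M) := by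
  intro x y h
  exact Subtype.ext (phi_inj h)

lemma continuous_Psi (M : VonNeumannAlgebra H) : Continuous (Psi M) := (isInducing_Psi M).continuous

lemma continuous_coeff (M : VonNeumannAlgebra H) (ξ η : H) :
    Continuous fun x : Ball M => ⟪ξ, x.1 η⟫_ℂ :=
  (continuous_apply (ξ, η)).comp (continuous_Psi M)

instance (M : VonNeumannAlgebra H) : T2Space (Ball M) :=
  (⟨isInducing_Psi M, Psi_injective M⟩ : IsEmbedding (Psi M)).t2Space

lemma range_Psi (M : VonNeumannAlgebra H) :
    Set.range (Psi M) = {f | (∀ ξ ξ' η, f (ξ + ξ', η) = f (ξ, η) + f (ξ', η)) ∧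
      (∀ (c : ℂ) ξ η, f (c • ξ, η) = (starRingEnd ℂ) c * f (ξ, η)) ∧
      (∀ ξ η η', f (ξ, η + η') = f (ξ, η) + f (ξ, η')) ∧
      (∀ (c : ℂ) ξ η, f (ξ, c • η) = c * f (ξ, η)) ∧
      (∀ ξ η, ‖f (ξ, η)‖ ≤ ‖ξ‖ * ‖η‖) ∧
      (∀ y ∈ M.commutant, ∀ ξ η, f (star y ξ, η) = f (ξ, y η))} := by
  ext f
  constructor
  · rintro ⟨⟨y, hyM, hyn⟩, rfl⟩
    refine ⟨?_, ?_, ?_, ?_, ?_, ?_⟩
    · intro ξ ξ' η; simp [Psi, phi, inner_add_left]
    · intro c ξ η; simp [Psi, phi, inner_smul_left, mul_comm]
    · intro ξ η η'; simp [Psi, phi, inner_add_right]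
    · intro c ξ η; simp [Psi, phi, inner_smul_right]
    · intro ξ η
      calc ‖⟪ξ, y η⟫_ℂ‖ ≤ ‖ξ‖ * ‖y η‖ := norm_inner_le_norm _ _
        _ ≤ ‖ξ‖ * (1 * ‖η‖) := by
            gcongr
            exact (y.le_opNorm _).trans (by gcongr)
        _ = _ := by ring
    · intro z hz ξ η
      have h1 := (VonNeumannAlgebra.mem_commutant_iff.1 hz) y hyM
      simp only [Psi, phi]
      rw [ContinuousLinearMap.star_eq_adjoint, ContinuousLinearMap.adjoint_inner_left,
        ← mul_apply_eq_comp, ← h1]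
      rfl
  · rintro ⟨h1, h2, h3, h4, h5, h7⟩
    obtain ⟨y, hyn, rfl⟩ := exists_op f h1 h2 h3 h4 h5
    refine ⟨⟨y, ?_, hyn⟩, rfl⟩
    refine mem_of_comm fun z hz => ?_
    ext η
    refine ext_inner_left ℂ fun ξ => ?_
    have := h7 z hz ξ η
    simp only [phi] at this
    rw [ContinuousLinearMap.star_eq_adjoint, ContinuousLinearMap.adjoint_inner_left] at this
    exact this

instance (M : VonNeumannAlgebra H) : CompactSpace (Ball M) := by
  rw [← isCompact_univ_iff, (isInducing_Psi M).isCompact_iff, Set.image_univ, range_Psi]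
  have hc : IsCompact (Set.univ.pi fun p : H × H => Metric.closedBall (0 : ℂ) (‖p.1‖ * ‖p.2‖)) :=
    isCompact_univ_pi fun p => isCompact_closedBall _ _
  refine hc.of_isClosed_subset ?_ ?_
  · have c1 : IsClosed {f : H × H → ℂ | ∀ ξ ξ' η, f (ξ + ξ', η) = f (ξ, η) + f (ξ', η)} := by
      simp only [Set.ofPred_forall]
      exact isClosed_iInter fun ξ => isClosed_iInter fun ξ' => isClosed_iInter fun η =>
        isClosed_eq (continuous_apply _)
          (Continuous.add (continuous_apply (_, _)) (continuous_apply (_, _)))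
    have c2 : IsClosed {f : H × H → ℂ | ∀ (c : ℂ) ξ η,
        f (c • ξ, η) = (starRingEnd ℂ) c * f (ξ, η)} := by
      simp only [Set.ofPred_forall]
      exact isClosed_iInter fun ξ => isClosed_iInter fun ξ' => isClosed_iInter fun η =>
        isClosed_eq (continuous_apply _) (continuous_const.mul (continuous_apply _))
    have c3 : IsClosed {f : H × H → ℂ | ∀ ξ η η', f (ξ, η + η') = f (ξ, η) + f (ξ, η')} := by
      simp only [Set.ofPred_forall]
      exact isClosed_iInter fun ξ => isClosed_iInter fun ξ' => isClosed_iInter fun η =>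
        isClosed_eq (continuous_apply _)
          (Continuous.add (continuous_apply (_, _)) (continuous_apply (_, _)))
    have c4 : IsClosed {f : H × H → ℂ | ∀ (c : ℂ) ξ η, f (ξ, c • η) = c * f (ξ, η)} := by
      simp only [Set.ofPred_forall]
      exact isClosed_iInter fun ξ => isClosed_iInter fun ξ' => isClosed_iInter fun η =>
        isClosed_eq (continuous_apply _) (continuous_const.mul (continuous_apply _))
    have c5 : IsClosed {f : H × H → ℂ | ∀ ξ η, ‖f (ξ, η)‖ ≤ ‖ξ‖ * ‖η‖} := by
      simp only [Set.ofPred_forall]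
      exact isClosed_iInter fun ξ => isClosed_iInter fun ξ' =>
        isClosed_le (continuous_apply _).norm continuous_const
    have c7 : IsClosed {f : H × H → ℂ | ∀ y ∈ M.commutant, ∀ ξ η,
        f (star y ξ, η) = f (ξ, y η)} := by
      simp only [Set.ofPred_forall]
      exact isClosed_iInter fun y => isClosed_iInter fun _ => isClosed_iInter fun ξ =>
        isClosed_iInter fun η => isClosed_eq (continuous_apply _) (continuous_apply _)
    exact c1.inter (c2.inter (c3.inter (c4.inter (c5.inter c7))))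
  · rintro f ⟨_, _, _, _, h5, _⟩ p _
    rw [mem_closedBall_zero_iff]
    exact h5 p.1 p.2

/-- density of the unitaries in the ball -/
lemma dense_unitaries {M : VonNeumannAlgebra H} (hM : ¬ HasFinDimSummand M) :
    Dense (unitaries M) := by
  intro x
  rw [(isInducing_Psi M).closure_eq_preimage_closure_image]
  have h1 : Ap M x.1 := ap_of_ball hM x.2.1 x.2.2
  refine closure_mono ?_ h1
  rintro _ ⟨u, hu, rfl⟩
  exact ⟨⟨u, hu.mem, hu.norm_le⟩, ⟨hu.left, hu.right⟩, rfl⟩

end Q88.Resid
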